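import Pool.Agent.R782.Bal.ClassDef
import Pool.Agent.R781.VS.Class
import Pool.Agent.W907.SM.Final

/-!
# `ℓ²`-vanishing for the classes `BR` and `SQ`
-/

set_option autoImplicit false
set_option linter.unusedSectionVars false

namespace Pool.Agent.R782.Bal

open Pool.Agent.W907.SG Pool.Agent.W907.SM
open Pool.Agent.TH652.Join (join ljoin)
open Pool.Agent.TH652.Glue (lglue)
open Pool.Agent.TH652.Above (Q HSph lv_img lv_set lv_sub lv_univ lv_add lv_cone Q_emb Q_join Q_del Q_loc Q_vert Q_glue
  singer_of_above)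
open Pool.Agent.R781.VS (AR con NoSq Q_of_AR Q_split l2split l2vdel)

/-- the base -/
theorem Q_bal {d : ℕ} {V : Type} (G : SimpleGraph V) (col : V → Fin (d + 1))
    (hc : ∀ u v, G.Adj u v → col u ≠ col v) (hE : Emb d G) : Q (2 * d + 1) G := by
  refine ⟨hE.finite, fun A i hi _ _ => ?_⟩
  exact l2_emb (hE.induce A) (fun a => col a.1) (fun u v h => hc _ _ h) i (by omega)

theorem susp_adj1 {V : Type} (G : SimpleGraph V) (a b : V) : (susp G).Adj (Sum.inl a) (Sum.inl b) ↔ G.Adj a b :=
  Iff.rfl

theorem lv_susp {V : Type} [Finite V] (G : SimpleGraph V) (i : ℕ) : LV (susp G) i := by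
  refine lsusp (V ⊕ Bool) (susp G) (Sum.inr true) (Sum.inr false) i (by simp) (fun h => h) ?_
  rintro (u | u) h1 h2
  · exact ⟨trivial, trivial⟩
  · cases u
    · exact absurd rfl h2
    · exact absurd rfl h1

theorem Q_susp {n : ℕ} {V : Type} (G : SimpleGraph V) (h : Q n G) : Q n (susp G) := by
  classical
  obtain ⟨hfin, h⟩ := h
  refine ⟨inferInstance, fun A i hi => ?_⟩
  -- the part in the original complex
  set B : Set V := {a | Sum.inl a ∈ A} with hB
  have hBl : LV ((susp G).induce (Sum.inl '' B)) i :=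
    (lv_img (G := susp G) (H := G) Sum.inl B (fun _ _ _ _ h => Sum.inl_injective h) (fun _ _ _ _ => Iff.rfl) i).1
      (h B i hi)
  by_cases h1 : Sum.inr true ∈ A
  · by_cases h2 : Sum.inr false ∈ A
    · -- a suspension
      refine lsusp ↥A _ ⟨_, h1⟩ ⟨_, h2⟩ i (by simp) (fun h => h) ?_
      rintro ⟨u | u, hu⟩ h3 h4
      · exact ⟨trivial, trivial⟩
      · cases u
        · exact absurd rfl h4
        · exact absurd rfl h3
    · have hA : A = insert (Sum.inr true) (Sum.inl '' B) := by
        ext x
        rcases x with x | x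
        · simp [hB]
        · cases x
          · simp [h2]
          · simp [h1]
      refine lv_set hA ?_
      refine lv_cone (susp G) _ _ (by simp) ?_ i hBl
      rintro _ ⟨a, _, rfl⟩
      exact trivial
  · by_cases h2 : Sum.inr false ∈ A
    · have hA : A = insert (Sum.inr false) (Sum.inl '' B) := by
        ext x
        rcases x with x | x
        · simp [hB]
        · cases x
          · simp [h2]
          · simp [h1]
      refine lv_set hA ?_
      refine lv_cone (susp G) _ _ (by simp) ?_ i hBl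
      rintro _ ⟨a, _, rfl⟩
      exact trivial
    · have hA : A = Sum.inl '' B := by
        ext x
        rcases x with x | x
        · simp [hB]
        · cases x
          · simp [h2]
          · simp [h1]
      exact lv_set hA hBl

theorem Q_of_BR {n : ℕ} {V : Type} {G : SimpleGraph V} (h : BR n G) : Q n G := by
  induction h with
  | ar G h => exact Q_of_AR h
  | bal G col hc hE => exact Q_bal G col hc hE
  | split G s t hst hsq _ _ _ _ ih1 ih2 ih3 ih4 => exact Q_split G s t hst hsq ih1 ih2 ih3 ih4
  | full G A _ ih => exact Q_emb G _ (SimpleGraph.Embedding.induce A) ih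
  | join G H _ _ ih1 ih2 => exact Q_join G H ih1 ih2
  | susp G _ ih => exact Q_susp G ih
  | succ G _ ih => exact ⟨ih.1, fun A i hi => ih.2 A i (by omega)⟩
  | pred G _ ih => exact ⟨ih.1, fun A i hi => ih.2 A i (by omega)⟩
  | del G s t hst _ _ ih1 ih2 => exact Q_del G s t hst ih1 ih2
  | loc G B hB _ ih => exact Q_loc G B hB ih
  | vert G v _ _ ih1 ih2 => exact Q_vert G v ih1 ih2
  | glue G A B hAB hno _ _ _ ih1 ih2 ih3 => exact Q_glue G A B hAB hno ih1 ih2 ih3
  | iso G H e _ ih => exact Q_emb G H e.some.symm.toEmbedding ih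

/-- vanishing above the middle -/
theorem above_BR {n : ℕ} {V : Type} [Fintype V] [LinearOrder V] {G : SimpleGraph V} (h : BR n G) (i : ℕ)
    (hi : n < 2 * i) : L2Van G i :=
  (lv_univ G i).1 ((Q_of_BR h).2 Set.univ i hi) _ _

/-! ### the class `SQ` -/

/-- relative subdivisions -/
theorem lv_relsub {V : Type} [Finite V] (G : SimpleGraph V) (O : Set V) (lo : V → Set V) (h : V → ℕ) (b : ℕ)
    (h1 : ∀ x ∈ O, ∀ y ∈ lo x, G.Adj x y ∧ h y < h x)
    (h2 : ∀ x ∈ O, ∀ w, G.Adj x w → w ∉ lo x → ∀ y ∈ lo x, G.Adj w y)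
    (h3 : ∀ x ∈ O, ∀ i, LV (G.induce (lo x)) i) (h4 : ∀ i, b ≤ i → LV (G.induce Oᶜ) i) (i : ℕ) (hi : b ≤ i) :
    LV G i := by
  classical
  have : Fintype V := Fintype.ofFinite V
  -- closed sets of added vertices
  have key : ∀ s : Finset V, (∀ x ∈ s, x ∈ O) → (∀ x ∈ s, ∀ y ∈ lo x, y ∈ O → y ∈ s) →
      LV (G.induce (Oᶜ ∪ (s : Set V))) i := by
    intro s
    refine Finset.induction_on_max_value h (motive := fun s : Finset V => (∀ x ∈ s, x ∈ O) →
      (∀ x ∈ s, ∀ y ∈ lo x, y ∈ O → y ∈ s) → LV (G.induce (Oᶜ ∪ (s : Set V))) i) s ?_ ?_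
    · intro _ _
      rw [Finset.coe_empty, Set.union_empty]
      exact h4 i hi
    · intro a s ha hmax ih hO hcl
      have hs1 : ∀ x ∈ s, x ∈ O := fun x hx => hO x (Finset.mem_insert_of_mem hx)
      have hs2 : ∀ x ∈ s, ∀ y ∈ lo x, y ∈ O → y ∈ s := by
        intro x hx y hy hyO
        rcases Finset.mem_insert.1 (hcl x (Finset.mem_insert_of_mem hx) y hy hyO) with h5 | h5
        · subst h5
          have h6 := (h1 x (hs1 x hx) y hy).2
          have h7 := hmax x hx
          omega
        · exact h5
      have haO : a ∈ O := hO a (Finset.mem_insert_self a s)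
      have hloin : lo a ⊆ Oᶜ ∪ (s : Set V) := by
        intro y hy
        by_cases hyO : y ∈ O
        · right
          rcases Finset.mem_insert.1 (hcl a (Finset.mem_insert_self a s) y hy hyO) with h5 | h5
          · exfalso
            have h6 := (h1 a haO y hy).2
            rw [h5] at h6
            exact lt_irrefl _ h6
          · exact h5
        · left; exact hyO
      refine lv_add G _ a (Or.inr (by simp)) i ?_ fun j _ => ?_
      · refine lv_set ?_ (ih hs1 hs2)
        ext x
        simp only [Finset.coe_insert, Set.mem_sdiff, Set.mem_union, Set.mem_compl_iff, Set.mem_insert_iff,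
          Finset.mem_coe, Set.mem_singleton_iff]
        constructor
        · rintro ⟨h5 | h5 | h5, h6⟩
          · exact Or.inl h5
          · exact absurd h5 h6
          · exact Or.inr h5
        · rintro (h5 | h5)
          · exact ⟨Or.inl h5, fun e => h5 (e ▸ haO)⟩
          · exact ⟨Or.inr (Or.inr h5), fun e => ha (e ▸ h5)⟩
      · -- the link is a join with an acyclic complex
        set N : Set V := (Oᶜ ∪ ((insert a s : Finset V) : Set V)) ∩ G.neighborSet a with hN
        set B : Set V := N \ lo a with hB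
        have hloN : lo a ⊆ N := by
          intro y hy
          refine ⟨?_, (h1 a haO y hy).1⟩
          rcases hloin hy with h5 | h5
          · exact Or.inl h5
          · right; simp only [Finset.coe_insert]; exact Set.mem_insert_of_mem _ h5
        have hj : LV (join (G.induce (lo a)) (G.induce B)) j :=
          ljoin _ _ j fun p q _ => Or.inl (h3 a haO p)
        rw [← lv_univ] at hj
        have h5 := (lv_img (G := G) (fun x : ↥(lo a) ⊕ ↥B => match x with
          | Sum.inl a => a.1
          | Sum.inr b => b.1) Set.univ ?_ ?_ j).1 hj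
        · refine lv_set ?_ h5
          ext x
          simp only [Set.mem_image, Set.mem_univ, true_and]
          constructor
          · intro hx
            by_cases hxl : x ∈ lo a
            · exact ⟨Sum.inl ⟨x, hxl⟩, rfl⟩
            · exact ⟨Sum.inr ⟨x, hx, hxl⟩, rfl⟩
          · rintro ⟨y | y, rfl⟩
            · exact hloN y.2
            · exact y.2.1
        · rintro (u | u) _ (w | w) _ huw
          · exact congrArg Sum.inl (Subtype.ext huw)
          · exfalso
            have h6 : u.1 = w.1 := huw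
            exact w.2.2 (h6 ▸ u.2)
          · exfalso
            have h6 : u.1 = w.1 := huw
            exact u.2.2 (h6 ▸ w.2)
          · exact congrArg Sum.inr (Subtype.ext huw)
        · rintro (u | u) _ (w | w) _
          · exact Iff.rfl
          · exact iff_of_true (h2 a haO w.1 w.2.1.2 w.2.2 u.1 u.2).symm trivial
          · exact iff_of_true (h2 a haO u.1 u.2.1.2 u.2.2 w.1 w.2) trivial
          · exact Iff.rfl
  have h5 := key (Finset.univ.filter (fun x => x ∈ O)) (fun x hx => (Finset.mem_filter.1 hx).2)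
    (fun x _ y _ hyO => Finset.mem_filter.2 ⟨Finset.mem_univ y, hyO⟩)
  rw [← lv_univ]
  refine lv_set ?_ h5
  ext x
  simp only [Set.mem_univ, Set.mem_union, Set.mem_compl_iff, Finset.coe_filter, Finset.mem_univ, true_and,
    Set.mem_ofPred_eq, true_iff]
  exact (em (x ∈ O)).symm

/-- the motive -/
def VB (b : ℕ) {V : Type} (G : SimpleGraph V) : Prop := Finite V ∧ ∀ i, b ≤ i → LV G i

theorem VB_of_SQ {b : ℕ} {V : Type} {G : SimpleGraph V} (h : SQ b G) : VB b G := by
  classical
  induction h with
  | @br n V G h =>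
    have h1 := Q_of_BR h
    exact ⟨h1.1, fun i hi => (lv_univ G i).1 (h1.2 Set.univ i (by omega))⟩
  | susp G => exact ⟨inferInstance, fun i _ => lv_susp G i⟩
  | @sph m V _ _ G hS _ ih =>
    refine ⟨ih.1, fun i _ => ?_⟩
    exact lv_of (singer_of_above hS (fun i hi => ih.2 i (by omega) _ _) i (by omega))
  | @eul m V _ _ G hS _ hχ ih =>
    refine ⟨ih.1, fun i _ => ?_⟩
    have h1 : ∀ i, i ≠ m → L2Van G i := fun i hi =>
      singer_of_above hS (fun i hi => ih.2 i (by omega) _ _) i (by omega)
    exact lv_of ((l2eul V G m h1).2 hχ i)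
  | up G _ ih => exact ⟨ih.1, fun i hi => ih.2 i (by omega)⟩
  | @sub b V _ G O lo h h1 h2 _ _ ih1 ih2 =>
    exact ⟨inferInstance, lv_relsub G O lo h b h1 h2 (fun x hx i => (ih1 x hx).2 i (Nat.zero_le _)) ih2.2⟩
  | vert G v _ _ ih1 ih2 =>
    exact ⟨inferInstance, fun i hi => lstep1 _ G v i (ih1.2 i hi) fun j hj => ih2.2 j (by omega)⟩
  | @vdel b V _ G v _ _ ih1 ih2 =>
    refine ⟨inferInstance, fun i hi _ _ => ?_⟩
    have : Fintype V := Fintype.ofFinite V
    have e1 : LinearOrder V := IsWellOrder.linearOrder WellOrderingRel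
    have h5 := l2vdel V G v i (ih1.2 i hi _ _) (ih2.2 i hi _ _)
    exact ord _ _ _ _ _ _ _ _ i ⟨SimpleGraph.Iso.refl⟩ h5
  | del G s t hst _ _ ih1 ih2 =>
    exact ⟨inferInstance, fun i hi => lstep2 _ G s t i hst (ih1.2 i hi) fun j hj => ih2.2 j (by omega)⟩
  | split G s t hst hsq _ _ ih1 ih2 =>
    refine ⟨inferInstance, fun i hi _ _ => ?_⟩
    exact l2split _ G s t i hst hsq (ih1.2 i hi _ _) fun j hj => ih2.2 j (by omega) _ _
  | glue G A B hAB hno _ _ _ ih1 ih2 ih3 =>
    exact ⟨inferInstance, fun i hi => lglue G A B hAB hno i (ih1.2 i hi) (ih2.2 i hi) fun j hj =>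
      ih3.2 j (by omega)⟩
  | @join a b V U G H _ _ ih1 ih2 =>
    have := ih1.1
    have := ih2.1
    refine ⟨inferInstance, fun i hi => ljoin G H i fun p q hpq => ?_⟩
    rcases le_or_gt a p with h | h
    · exact Or.inl (ih1.2 p h)
    · exact Or.inr (ih2.2 q (by omega))
  | @iso b V U G H e _ ih =>
    have hV : Finite V := ih.1
    exact ⟨Finite.of_equiv V e.some.toEquiv, fun i hi => liso _ _ _ _ i e (ih.2 i hi)⟩

/-- vanishing in the degrees `≥ b` for the class `SQ b` -/
theorem above_SQ {b : ℕ} {V : Type} [Fintype V] [LinearOrder V] {G : SimpleGraph V} (h : SQ b G) (i : ℕ)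
    (hi : b ≤ i) : L2Van G i := (VB_of_SQ h).2 i hi _ _

/-- the Singer conjecture for homology spheres in the class -/
theorem singer_SQ {n : ℕ} {V : Type} [Fintype V] [LinearOrder V] {G : SimpleGraph V} (hS : HSph n G)
    (h : SQ (n / 2 + 1) G) (i : ℕ) (hi : 2 * i ≠ n) : L2Van G i :=
  singer_of_above hS (fun i hi => above_SQ h i (by omega)) i hi

/-- the Charney-Davis inequality -/
theorem charney_davis_SQ {m : ℕ} {V : Type} [Fintype V] [LinearOrder V] {G : SimpleGraph V} (hS : HSph (2 * m) G)
    (h : SQ (m + 1) G) : 0 ≤ (-1 : ℚ) ^ m * chiW G :=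
  Pool.Agent.TH652.Above.chi_sign G fun i hi => singer_of_above hS (fun i hi => above_SQ h i (by omega)) i (by omega)

end Pool.Agent.R782.Bal
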