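import Pool.Agent.R782.Bal.Ex
import Pool.Agent.Y131.KS.Sub
import Pool.Agent.Y131.KS.Alm

/-!
# Flag complexes embedded in spheres of dimension `2 d`
-/

set_option autoImplicit false
set_option linter.unusedSectionVars false

namespace Pool.Agent.R782.Bal

open Finset Pool.Agent.W555.KS Pool.Agent.W907.SG Pool.Agent.W907.SM Pool.Agent.Y131.KS

/-- The geometric realization of the flag complex of `G`: the vectors with nonnegative coordinates and sum `1`
whose support is a clique. -/
def Rea {V : Type} (G : SimpleGraph V) : Set (V → ℝ) :=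
  {x | (∀ v, 0 ≤ x v) ∧ ∑ᶠ v, x v = 1 ∧ G.IsClique {v | x v ≠ 0}}

/-- The flag complex of `G` is embedded in a sphere of dimension `2 d` in one of the following two ways. -/
inductive Emb (d : ℕ) {V : Type} (G : SimpleGraph V) : Prop
  /-- The flag complex of `G` is isomorphic to a subcomplex (not necessarily a full subcomplex) of a simplicial
  complex `K` of dimension `n - 1 ≤ 2 d` which is a homology manifold over the field with two elements with the
  homology of the `(n-1)`-sphere (`K` need not be a flag complex). -/
  | sphere {N n : ℕ} (K : Finset (Finset (Fin N))) (f : V ↪ Fin N) : n ≤ 2 * d + 1 →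
      Pool.Agent.Y131.KS.HSph K n → (∀ T : Finset V, G.IsClique (T : Set V) → T.map f ∈ K) → Emb d G
  /-- There is a continuous map from the geometric realization of the flag complex of `G` to the unit sphere of the
  euclidean space of dimension `2 d + 1` for which disjoint simplices have disjoint images (an almost embedding);
  for example, the flag complex of `G` is homeomorphic to a subset of that sphere. -/
  | unit (F : (V → ℝ) → EuclideanSpace ℝ (Fin (2 * d + 1))) : Finite V → ContinuousOn F (Rea G) →
      (∀ x ∈ Rea G, ‖F x‖ = 1) →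
      (∀ x ∈ Rea G, ∀ y ∈ Rea G, (∀ v, x v = 0 ∨ y v = 0) → F x ≠ F y) → Emb d G

/-- extension by zero -/
noncomputable def ext0 {V : Type} (A : Set V) (x : ↥A → ℝ) (v : V) : ℝ :=
  open Classical in if h : v ∈ A then x ⟨v, h⟩ else 0

theorem ext0_mem {V : Type} (A : Set V) (x : ↥A → ℝ) (a : ↥A) : ext0 A x a.1 = x a := by
  rw [ext0, dif_pos a.2]

theorem ext0_notMem {V : Type} (A : Set V) (x : ↥A → ℝ) (v : V) (h : v ∉ A) : ext0 A x v = 0 := by
  rw [ext0, dif_neg h]

theorem ext0_cont {V : Type} (A : Set V) : Continuous (ext0 A : (↥A → ℝ) → V → ℝ) := by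
  refine continuous_pi fun v => ?_
  by_cases h : v ∈ A
  · have : (fun x : ↥A → ℝ => ext0 A x v) = fun x => x ⟨v, h⟩ := by
      funext x
      rw [ext0, dif_pos h]
    rw [this]
    exact continuous_apply _
  · have : (fun x : ↥A → ℝ => ext0 A x v) = fun _ => 0 := by
      funext x
      rw [ext0, dif_neg h]
    rw [this]
    exact continuous_const

theorem ext0_rea {V : Type} [Finite V] {G : SimpleGraph V} (A : Set V) {x : ↥A → ℝ} (hx : x ∈ Rea (G.induce A)) :
    ext0 A x ∈ Rea G := by
  classical
  obtain ⟨h1, h2, h3⟩ := hx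
  refine ⟨fun v => ?_, ?_, ?_⟩
  · by_cases h : v ∈ A
    · rw [ext0, dif_pos h]; exact h1 _
    · rw [ext0_notMem A x v h]
  · have : Fintype V := Fintype.ofFinite V
    rw [← h2, finsum_eq_sum_of_fintype, finsum_eq_sum_of_fintype]
    rw [← sum_subset (subset_univ (univ.filter (fun v => v ∈ A))) (fun v _ hv => ?_)]
    · rw [sum_filter]
      rw [← sum_filter]
      rw [sum_subtype (univ.filter (fun v => v ∈ A)) (p := fun v => v ∈ A) (by simp)]
      exact sum_congr rfl fun a _ => ext0_mem A x a
    · rw [mem_filter, not_and] at hv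
      exact ext0_notMem A x v (hv (mem_univ v))
  · intro u hu w hw huw
    have hu' : ext0 A x u ≠ 0 := hu
    have hw' : ext0 A x w ≠ 0 := hw
    by_cases h4 : u ∈ A
    · by_cases h5 : w ∈ A
      · have e1 := ext0_mem A x ⟨u, h4⟩
        have e2 := ext0_mem A x ⟨w, h5⟩
        have h6 := h3 (x := ⟨u, h4⟩) (by rw [Set.mem_setOf_eq, ← e1]; exact hu')
          (y := ⟨w, h5⟩) (by rw [Set.mem_setOf_eq, ← e2]; exact hw') (fun e => huw (congrArg Subtype.val e))
        exact h6
      · exact absurd (ext0_notMem A x w h5) hw'
    · exact absurd (ext0_notMem A x u h4) hu'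

/-- the hypothesis passes to full subcomplexes -/
theorem Emb.induce {d : ℕ} {V : Type} {G : SimpleGraph V} (h : Emb d G) (A : Set V) : Emb d (G.induce A) := by
  cases h with
  | sphere K f hn hK hf =>
    refine Emb.sphere K ((Function.Embedding.subtype _).trans f) hn hK fun T hT => ?_
    have h1 := hf (T.map (Function.Embedding.subtype _)) (by
      intro a ha b hb hab
      rw [mem_coe, mem_map] at ha hb
      obtain ⟨a', ha', rfl⟩ := ha
      obtain ⟨b', hb', rfl⟩ := hb
      exact hT ha' hb' fun e => hab (by rw [e]))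
    rwa [map_map] at h1
  | unit F hfin hF h1 hinj =>
    refine Emb.unit (fun x => F (ext0 A x)) inferInstance
      (hF.comp (ext0_cont A).continuousOn fun x hx => ext0_rea A hx) (fun x hx => h1 _ (ext0_rea A hx)) ?_
    intro x hx y hy hxy
    refine hinj _ (ext0_rea A hx) _ (ext0_rea A hy) fun v => ?_
    by_cases h : v ∈ A
    · rcases hxy ⟨v, h⟩ with h1 | h1
      · left; rw [ext0, dif_pos h, h1]
      · right; rw [ext0, dif_pos h, h1]
    · left; exact ext0_notMem A x v h

/-- the hypothesis passes along isomorphisms onto full subcomplexes -/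
theorem Emb.finite {d : ℕ} {V : Type} {G : SimpleGraph V} (h : Emb d G) : Finite V := by
  cases h with
  | sphere K f _ _ _ => exact Finite.of_injective f f.injective
  | unit F hfin _ _ _ => exact hfin

/-- raising the degree -/
theorem vk2_succ {n D : ℕ} {L : Finset (Finset (Fin n))} (hL : IsCx L) (h : VK2 L D) : VK2 L (D + 1) := by
  refine vk2_mono (f := Fin.castSuccEmb) ?_ ?_ (cone2 hL h)
  · intro a b hab
    exact Fin.castSucc_lt_castSucc_iff.mpr hab
  · intro σ hσ
    exact mem_cone.mpr hσ

theorem vk2_le {n D D' : ℕ} {L : Finset (Finset (Fin n))} (hL : IsCx L) (hD : D ≤ D') (h : VK2 L D) :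
    VK2 L D' := by
  induction D', hD using Nat.le_induction with
  | base => exact h
  | succ k _ ih => exact vk2_succ hL ih

/-- vanishing of the obstruction -/
theorem Emb.obs {d : ℕ} {V : Type} {G : SimpleGraph V} (h : Emb d G) : Obs G (2 * (d + 1)) := by
  classical
  intro n e
  refine vk_of_vk2 ?_
  cases h with
  | @sphere N n' K f hn hK hf =>
    refine vk2_le (clF_cx G e) (D := n' + 1) (by omega) ?_
    refine vk2_of_sphere hK (e.symm.toEmbedding.trans f) fun σ hσ => ?_
    rw [← map_map]
    exact hf _ (mem_clF.mp hσ)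
  | unit F hfin hF hn hinj =>
    have hmem : ∀ x ∈ Pool.Agent.W289.KS.rea (clF G e), (fun v => x (e v)) ∈ Rea G := by
      rintro x ⟨h1, h2, σ, hσ, h3⟩
      refine ⟨fun v => h1 _, ?_, ?_⟩
      · have : Fintype V := Fintype.ofFinite V
        rw [finsum_eq_sum_of_fintype, ← h2]
        exact Fintype.sum_equiv e _ _ fun v => rfl
      · have h4 := mem_clF.mp hσ
        refine h4.subset ?_
        intro v hv
        rw [mem_coe, mem_map]
        refine ⟨e v, ?_, e.symm_apply_apply v⟩
        by_contra h5
        exact hv (h3 _ h5)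
    have hC : ConeEmb (clF G e) (2 * d + 1) := by
      refine cone_of_almost _ (fun x => F fun v => x (e v)) ?_ ?_ ?_
      · refine hF.comp (Continuous.continuousOn ?_) hmem
        exact continuous_pi fun v => continuous_apply _
      · intro x hx
        exact hn _ (hmem x hx)
      · intro x hx y hy hxy
        exact hinj _ (hmem x hx) _ (hmem y hy) (fun v => hxy (e v))
    have h1 := vk2_of_odd (clF_cx G e) (odd_of_coneEmb (clF_cx G e) hC)
    exact h1

/-- **Theorem.** Let the vertices of `G` be properly coloured by `d + 1` colours and suppose that the flag complex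
of `G` is embedded in a sphere of dimension `2 d`. Then the `ℓ²`-homology of the Davis complex of `W G` vanishes
in the degrees `≥ d + 1`. -/
theorem l2_emb {d : ℕ} {V : Type} [Fintype V] [LinearOrder V] {G : SimpleGraph V} (hE : Emb d G)
    (col : V → Fin (d + 1)) (hc : ∀ u w, G.Adj u w → col u ≠ col w) (i : ℕ) (hi : d < i) : L2Van G i :=
  l2_top hc hE.obs i hi

end Pool.Agent.R782.Bal
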