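import Pool.Agent.R781.VS.ClassDef
import Pool.Agent.R782.Bal.Emb

/-!
# The classes `BR n` and `SQ b` of finite graphs
-/

set_option autoImplicit false

namespace Pool.Agent.R782.Bal

open Pool.Agent.W907.SG Pool.Agent.W907.SM
open Pool.Agent.TH652.Join (join)
open Pool.Agent.R781.VS (AR con NoSq)

/-- The class `BR n`: the closure, under the operations of the class `AR`, of the class `AR n` and of the graphs
which can be properly coloured by `d + 1` colours and whose flag complex is embedded in a sphere of dimension `2 d`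
(these are in the classes `2 d + 1` and `2 d`). -/
inductive BR : ℕ → ∀ {V : Type}, SimpleGraph V → Prop
  /-- the members of the class `AR n` -/
  | ar {n : ℕ} {V : Type} (G : SimpleGraph V) : AR n G → BR n G
  /-- balanced `d`-dimensional complexes in spheres of dimension `2 d` -/
  | bal {d : ℕ} {V : Type} (G : SimpleGraph V) (col : V → Fin (d + 1)) :
      (∀ u v, G.Adj u v → col u ≠ col v) → Emb d G → BR (2 * d + 1) G
  /-- vertex splitting: the edge `st` of `G` is not contained in an induced 4-cycle; the graph obtained by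
  contracting it and the links of `s` and `t` are in the class `n + 2`, the link of the edge is in the class `n` -/
  | split {n : ℕ} {V : Type} [Finite V] (G : SimpleGraph V) (s t : V) : G.Adj s t → NoSq G s t →
      BR (n + 2) ((con G s t).induce {t}ᶜ) → BR n (G.induce (G.neighborSet s ∩ G.neighborSet t)) →
      BR (n + 2) (G.induce (G.neighborSet s)) → BR (n + 2) (G.induce (G.neighborSet t)) → BR (n + 2) G
  /-- full subcomplexes -/
  | full {n : ℕ} {V : Type} (G : SimpleGraph V) (A : Set V) : BR n G → BR n (G.induce A)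
  /-- joins -/
  | join {m n : ℕ} {V U : Type} (G : SimpleGraph V) (H : SimpleGraph U) : BR m G → BR n H → BR (m + n) (join G H)
  /-- suspensions -/
  | susp {n : ℕ} {V : Type} (G : SimpleGraph V) : BR n G → BR n (susp G)
  /-- from `n` to `n + 1` -/
  | succ {n : ℕ} {V : Type} (G : SimpleGraph V) : BR n G → BR (n + 1) G
  /-- from `2 m + 1` to `2 m` -/
  | pred {m : ℕ} {V : Type} (G : SimpleGraph V) : BR (2 * m + 1) G → BR (2 * m) G
  /-- deleting an edge whose link is in the class `n` -/
  | del {n : ℕ} {V : Type} [Finite V] (G : SimpleGraph V) (s t : V) : G.Adj s t → BR (n + 2) G →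
      BR n (G.induce (G.neighborSet s ∩ G.neighborSet t)) → BR (n + 2) (G.deleteEdges {s(s, t)})
  /-- even length: the vertices whose links are not in the class `2 m + 1` span a subcomplex of dimension at
  most `m` -/
  | loc {m : ℕ} {V : Type} [Finite V] (G : SimpleGraph V) (B : Set V) :
      (∀ T : Finset V, G.IsClique (T : Set V) → (T : Set V) ⊆ B → T.card ≤ m + 1) →
      (∀ v, v ∉ B → BR (2 * m + 1) (G.induce (G.neighborSet v))) → BR (2 * m + 2) G
  /-- adding a vertex whose link is in the class `n` -/
  | vert {n : ℕ} {V : Type} [Finite V] (G : SimpleGraph V) (v : V) : BR (n + 2) (G.induce {v}ᶜ) →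
      BR n (G.induce (G.neighborSet v)) → BR (n + 2) G
  /-- gluing along a full subcomplex of the class `n` -/
  | glue {n : ℕ} {V : Type} [Finite V] (G : SimpleGraph V) (A B : Set V) : A ∪ B = Set.univ →
      (∀ a ∈ A, a ∉ B → ∀ b ∈ B, b ∉ A → ¬ G.Adj a b) → BR (n + 2) (G.induce A) → BR (n + 2) (G.induce B) →
      BR n (G.induce (A ∩ B)) → BR (n + 2) G
  /-- isomorphic graphs -/
  | iso {n : ℕ} {V U : Type} (G : SimpleGraph V) (H : SimpleGraph U) : Nonempty (G ≃g H) → BR n G → BR n H

/-- The class `SQ b`: a class of finite graphs for which the `ℓ²`-homology vanishes in all the degrees `≥ b`. -/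
inductive SQ : ℕ → ∀ {V : Type}, SimpleGraph V → Prop
  /-- the members of the class `BR n` -/
  | br {n : ℕ} {V : Type} (G : SimpleGraph V) : BR n G → SQ (n / 2 + 1) G
  /-- suspensions are in the class `0` -/
  | susp {V : Type} [Finite V] (G : SimpleGraph V) : SQ 0 (susp G)
  /-- odd-dimensional case: homology spheres of dimension `2 m` in the class `m + 1` are in the class `0` -/
  | sph {m : ℕ} {V : Type} [Fintype V] [LinearOrder V] (G : SimpleGraph V) :
      Pool.Agent.TH652.Above.HSph (2 * m + 1) G → SQ (m + 1) G → SQ 0 G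
  /-- even-dimensional case: homology spheres of dimension `2 m - 1` in the class `m + 1` with vanishing Euler
  characteristic `∑_T (-1/2)^|T|` are in the class `0` -/
  | eul {m : ℕ} {V : Type} [Fintype V] [LinearOrder V] (G : SimpleGraph V) :
      Pool.Agent.TH652.Above.HSph (2 * m) G → SQ (m + 1) G → chiW G = 0 → SQ 0 G
  /-- from `b` to `b + 1` -/
  | up {b : ℕ} {V : Type} (G : SimpleGraph V) : SQ b G → SQ (b + 1) G
  /-- relative subdivisions: the vertices of `O` are added one after the other to the full subcomplex spanned by the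
  complement of `O`. For `x ∈ O` the set `lo x` consists of neighbours of `x` of smaller height, it spans a member
  of the class `0`, and all the other neighbours of `x` are adjacent to all the elements of `lo x`. (For example,
  `O` can be the set of the midpoints of subdivided edges, `lo x` being the two ends of the subdivided edge.) -/
  | sub {b : ℕ} {V : Type} [Finite V] (G : SimpleGraph V) (O : Set V) (lo : V → Set V) (h : V → ℕ) :
      (∀ x ∈ O, ∀ y ∈ lo x, G.Adj x y ∧ h y < h x) →
      (∀ x ∈ O, ∀ w, G.Adj x w → w ∉ lo x → ∀ y ∈ lo x, G.Adj w y) →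
      (∀ x ∈ O, SQ 0 (G.induce (lo x))) → SQ b (G.induce Oᶜ) → SQ b G
  /-- adding a vertex -/
  | vert {b : ℕ} {V : Type} [Finite V] (G : SimpleGraph V) (v : V) : SQ b (G.induce {v}ᶜ) →
      SQ (b - 1) (G.induce (G.neighborSet v)) → SQ b G
  /-- deleting a vertex -/
  | vdel {b : ℕ} {V : Type} [Finite V] (G : SimpleGraph V) (v : V) : SQ b G →
      SQ b (G.induce (G.neighborSet v)) → SQ b (G.induce {v}ᶜ)
  /-- deleting an edge -/
  | del {b : ℕ} {V : Type} [Finite V] (G : SimpleGraph V) (s t : V) : G.Adj s t → SQ b G →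
      SQ (b - 1) (G.induce (G.neighborSet s ∩ G.neighborSet t)) → SQ b (G.deleteEdges {s(s, t)})
  /-- vertex splitting -/
  | split {b : ℕ} {V : Type} [Finite V] (G : SimpleGraph V) (s t : V) : G.Adj s t → NoSq G s t →
      SQ b ((con G s t).induce {t}ᶜ) → SQ (b - 1) (G.induce (G.neighborSet s ∩ G.neighborSet t)) → SQ b G
  /-- gluing along a full subcomplex -/
  | glue {b : ℕ} {V : Type} [Finite V] (G : SimpleGraph V) (A B : Set V) : A ∪ B = Set.univ →
      (∀ a ∈ A, a ∉ B → ∀ b ∈ B, b ∉ A → ¬ G.Adj a b) → SQ b (G.induce A) → SQ b (G.induce B) →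
      SQ (b - 1) (G.induce (A ∩ B)) → SQ b G
  /-- joins -/
  | join {a b : ℕ} {V U : Type} (G : SimpleGraph V) (H : SimpleGraph U) : SQ a G → SQ (b + 1) H →
      SQ (a + b) (join G H)
  /-- isomorphic graphs -/
  | iso {b : ℕ} {V U : Type} (G : SimpleGraph V) (H : SimpleGraph U) : Nonempty (G ≃g H) → SQ b G → SQ b H

end Pool.Agent.R782.Bal
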