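import Pool.Agent.R782.Bal.Main
import Pool.Agent.R781.CubeAQ

/-!
# The top coefficient of the `γ`-vector and the Charney-Davis quantity
-/

set_option autoImplicit false

namespace Pool.Agent.R782.Bal

open Finset Pool.Agent.W907.SG Pool.Agent.W907.SM Pool.Agent.W497.FS Pool.Agent.R781.CubeAQ
open Pool.Agent.TH652.Above (HSph)

/-- a clique has at most `n` elements -/
theorem HSph_card {n : ℕ} {V : Type} [Fintype V] [LinearOrder V] {G : SimpleGraph V} (hS : HSph n G)
    {T : Finset V} (hT : G.IsClique (T : Set V)) : T.card ≤ n :=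
  Pool.Agent.TH652.Dual.no_big hS hT

theorem gamma_top {m N : ℕ} {S : Finset (Finset (Fin N))} (hc : ∀ σ ∈ S, σ.card ≤ 2 * m) {γ : ℕ → ℤ}
    (hγ : IsGamma (2 * m) S γ) : (γ m : ℚ) = (-1) ^ m * (4 ^ m * omega S) := by
  unfold IsGamma at hγ
  have h1 := congrArg (Polynomial.eval (-1 : ℤ)) hγ
  rw [Polynomial.eval_finset_sum, Polynomial.eval_finset_sum] at h1
  have h2 : ∑ i ∈ Finset.range (2 * m / 2 + 1), Polynomial.eval (-1 : ℤ)
      (Polynomial.C (γ i) * Polynomial.X ^ i * (1 + Polynomial.X) ^ (2 * m - 2 * i)) = γ m * (-1) ^ m := by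
    rw [Finset.sum_eq_single m]
    · simp
    · intro i hi him
      rw [Finset.mem_range] at hi
      simp only [Polynomial.eval_mul, Polynomial.eval_C, Polynomial.eval_pow, Polynomial.eval_X,
        Polynomial.eval_add, Polynomial.eval_one]
      rw [show (1 : ℤ) + -1 = 0 by ring, zero_pow (by omega), mul_zero]
    · intro h
      exact absurd (Finset.mem_range.mpr (by omega)) h
  rw [h2] at h1
  have h3 : omega S = ∑ j ∈ Finset.range (2 * m + 1), ((S.filter (fun G => G.card = j)).card : ℚ) * ((-1) ^ j / 2 ^ j) := by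
    unfold omega
    rw [← Finset.sum_fiberwise_of_maps_to (s := S) (t := Finset.range (2 * m + 1)) (g := fun σ => σ.card)
      (fun σ hσ => Finset.mem_range.mpr (by have := hc σ hσ; omega))]
    refine Finset.sum_congr rfl fun j _ => ?_
    rw [Finset.sum_congr rfl (g := fun _ => ((-1 : ℚ) ^ j / 2 ^ j))
      (fun σ hσ => by rw [(Finset.mem_filter.mp hσ).2]), Finset.sum_const, nsmul_eq_mul]
  have h4 : ((∑ j ∈ Finset.range (2 * m + 1), Polynomial.eval (-1 : ℤ)
      (Polynomial.C (((S.filter (fun G => G.card = j)).card : ℕ) : ℤ)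
        * Polynomial.X ^ j * (1 - Polynomial.X) ^ (2 * m - j)) : ℤ) : ℚ) = 4 ^ m * omega S := by
    rw [h3, Finset.mul_sum, Int.cast_sum]
    refine Finset.sum_congr rfl fun j hj => ?_
    have hj' := Finset.mem_range.mp hj
    simp only [Polynomial.eval_mul, Polynomial.eval_C, Polynomial.eval_pow, Polynomial.eval_X,
        Polynomial.eval_sub, Polynomial.eval_one]
    push_cast
    have h5 : (4 : ℚ) ^ m = 2 ^ (2 * m - j) * 2 ^ j := by
      rw [← pow_add, show 2 * m - j + j = 2 * m by omega, pow_mul]; norm_num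
    rw [h5]
    field_simp
  rw [h1] at h4
  push_cast at h4
  have h6 : ((-1 : ℚ) ^ m) * (-1) ^ m = 1 := by
    rw [← mul_pow]; norm_num
  calc (γ m : ℚ) = ((-1 : ℚ) ^ m * (-1) ^ m) * γ m := by rw [h6, one_mul]
    _ = (-1) ^ m * (4 ^ m * omega S) := by rw [← h4]; ring

/-- nonnegativity of the top coefficient -/
theorem gamma_top_nonneg {m : ℕ} {V : Type} [Fintype V] [LinearOrder V] {G : SimpleGraph V}
    (hS : HSph (2 * m) G) (hχ : 0 ≤ (-1 : ℚ) ^ m * chiW G) {n : ℕ} (φ : V ≃ Fin n) {γ : ℕ → ℤ}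
    (hγ : IsGamma (2 * m) (fam φ G) γ) : 0 ≤ γ m := by
  have h1 := gamma_top (fun σ hσ => by
    have h2 := HSph_card hS ((mem_fam φ G σ).1 hσ)
    rwa [Finset.card_map] at h2) hγ
  rw [omega_fam] at h1
  have h2 : (0 : ℚ) ≤ γ m := by
    rw [h1]
    have : (0 : ℚ) < 4 ^ m := by positivity
    calc (0 : ℚ) ≤ 4 ^ m * ((-1 : ℚ) ^ m * chiW G) := mul_nonneg this.le hχ
      _ = _ := by ring
  exact_mod_cast h2

end Pool.Agent.R782.Bal
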