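import Pool.Agent.R782.Bal.Hom
import Pool.Agent.W907.SM.Final

/-!
# The proper part of the Boolean lattice is Gorenstein*
-/

set_option autoImplicit false
set_option linter.unusedSectionVars false

namespace Pool.Agent.R782.Bal

open Finset Pool.Agent.W907.SG Pool.Agent.W907.SM

/-- the nonempty proper subsets of a set with `m` elements -/
def Vb (m : ℕ) : Type := {τ : Finset (Fin m) // τ.Nonempty ∧ τ ≠ univ}

/-- strict inclusion -/
def rb (m : ℕ) (σ τ : Vb m) : Prop := σ.1 ⊂ τ.1

theorem Vb.card_pos {m : ℕ} (σ : Vb m) : 0 < σ.1.card := Finset.card_pos.mpr σ.2.1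

theorem Vb.card_lt {m : ℕ} (σ : Vb m) : σ.1.card < m := by
  have h1 := Finset.card_le_univ σ.1
  rw [Fintype.card_fin] at h1
  rcases h1.lt_or_eq with h | h
  · exact h
  · exfalso
    apply σ.2.2
    rw [← Finset.card_eq_iff_eq_univ, h, Fintype.card_fin]

/-- the rank -/
def rkb (m : ℕ) (σ : Vb m) : Fin (m - 1) := ⟨σ.1.card - 1, by
  have := σ.card_pos
  have := σ.card_lt
  omega⟩

theorem adjb {m : ℕ} (σ τ : Vb m) : (cmp (rb m)).Adj σ τ ↔ σ.1 ⊂ τ.1 ∨ τ.1 ⊂ σ.1 := by
  rw [adj_cmp]
  constructor
  · exact fun h => h.2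
  · intro h
    refine ⟨?_, h⟩
    rintro rfl
    rcases h with h | h <;> exact h.2 (Finset.Subset.refl _)

theorem rkb_ne {m : ℕ} (a b : Vb m) (h : (cmp (rb m)).Adj a b) : rkb m a ≠ rkb m b := by
  rw [adjb] at h
  intro h1
  have h2 := congrArg Fin.val h1
  simp only [rkb] at h2
  have h3 := a.card_pos
  have h4 := b.card_pos
  rcases h with h | h
  · have := Finset.card_lt_card h
    omega
  · have := Finset.card_lt_card h
    omega

section

variable {m : ℕ} [Fintype (Vb m)] [LinearOrder (Vb m)]

theorem chain_card {F : Finset (Vb m)} (hF : (cmp (rb m)).IsClique (F : Set (Vb m))) : F.card ≤ m - 1 := by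
  have h := Finset.card_le_card_of_injOn (s := F) (t := (univ : Finset (Fin (m - 1)))) (rkb m)
    (fun _ _ => mem_coe.mpr (mem_univ _)) (by
      intro a ha b hb hab
      by_contra hne
      exact rkb_ne a b (hF ha hb hne) hab)
  simpa using h

theorem mem_lkb {F : Finset (Vb m)} {x : Vb m} : x ∈ lk (cmp (rb m)) F ↔ ∀ u ∈ F, x.1 ⊂ u.1 ∨ u.1 ⊂ x.1 := by
  show (∀ u ∈ F, (cmp (rb m)).Adj x u) ↔ _
  simp only [adjb]

theorem beta_lkb : ∀ (k : ℕ) (F : Finset (Vb m)), (cmp (rb m)).IsClique (F : Set (Vb m)) → k + F.card = m - 1 →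
    1 ≤ m → ∀ i, beta (cmp (rb m)) tr2 (lk (cmp (rb m)) F) ∅ i = if i + F.card = m - 1 then 1 else 0 := by
  intro k
  induction k with
  | zero =>
    intro F hF hk hm i
    have h1 : lk (cmp (rb m)) F = ∅ := by
      rw [Set.eq_empty_iff_forall_notMem]
      intro x hx
      have hxF : x ∉ F := fun h => (cmp (rb m)).loopless.irrefl x (hx x h)
      have h2 : (cmp (rb m)).IsClique ((insert x F : Finset (Vb m)) : Set (Vb m)) := by
        rw [Finset.coe_insert, SimpleGraph.isClique_insert]
        exact ⟨hF, fun b hb _ => hx b hb⟩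
      have h3 := chain_card h2
      rw [card_insert_of_notMem hxF] at h3
      omega
    rw [h1, beta_empty]
    have h2 : (i = 0) ↔ (i + F.card = m - 1) := by omega
    simp only [h2]
  | succ k ih =>
    intro F hF hk hm i
    -- a missing size
    obtain ⟨s, hs⟩ : ∃ s : Fin (m - 1), s ∉ F.image (rkb m) := by
      by_contra h
      push Not at h
      have h1 : F.image (rkb m) = univ := by
        ext s
        exact ⟨fun _ => mem_univ _, fun _ => h s⟩
      have h2 := card_image_le (s := F) (f := rkb m)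
      rw [h1, card_univ, Fintype.card_fin] at h2
      omega
    have hs1 : ∀ u ∈ F, u.1.card ≠ s.1 + 1 := by
      intro u hu h
      apply hs
      refine mem_image.mpr ⟨u, hu, ?_⟩
      apply Fin.ext
      simp only [rkb, h]
      omega
    have hchain : ∀ u ∈ F, ∀ w ∈ F, u.1.card ≤ w.1.card → u.1 ⊆ w.1 := by
      intro u hu w hw h
      by_cases huw : u = w
      · rw [huw]
      · have h1 := hF hu hw huw
        rw [adjb] at h1
        rcases h1 with h1 | h1
        · exact h1.subset
        · have := Finset.card_lt_card h1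
          omega
    -- the lower end of the gap
    obtain ⟨P, hP1, hP2, hP3⟩ : ∃ P : Finset (Fin m), P.card < s.1 + 1 ∧ (P = ∅ ∨ ∃ u ∈ F, u.1 = P) ∧
        ∀ u ∈ F, u.1.card < s.1 + 1 → u.1 ⊆ P := by
      by_cases hne : (F.filter (fun u => u.1.card < s.1 + 1)).Nonempty
      · obtain ⟨u, hu, hmax⟩ := exists_max_image _ (fun u : Vb m => u.1.card) hne
        rw [mem_filter] at hu
        refine ⟨u.1, hu.2, Or.inr ⟨u, hu.1, rfl⟩, fun w hw hwc => ?_⟩
        exact hchain w hw u hu.1 (hmax w (mem_filter.mpr ⟨hw, hwc⟩))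
      · refine ⟨∅, by simp, Or.inl rfl, fun u hu huc => ?_⟩
        exact absurd ⟨u, mem_filter.mpr ⟨hu, huc⟩⟩ hne
    -- the upper end of the gap
    obtain ⟨Q, hQ1, hQ2, hQ3⟩ : ∃ Q : Finset (Fin m), s.1 + 1 < Q.card ∧ (Q = univ ∨ ∃ u ∈ F, u.1 = Q) ∧
        ∀ u ∈ F, s.1 + 1 < u.1.card → Q ⊆ u.1 := by
      by_cases hne : (F.filter (fun u => s.1 + 1 < u.1.card)).Nonempty
      · obtain ⟨u, hu, hmax⟩ := exists_min_image _ (fun u : Vb m => u.1.card) hne
        rw [mem_filter] at hu
        refine ⟨u.1, hu.2, Or.inr ⟨u, hu.1, rfl⟩, fun w hw hwc => ?_⟩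
        exact hchain u hu.1 w hw (hmax w (mem_filter.mpr ⟨hw, hwc⟩))
      · refine ⟨univ, by rw [card_univ, Fintype.card_fin]; have := s.2; omega, Or.inl rfl, fun u hu huc => ?_⟩
        exact absurd ⟨u, mem_filter.mpr ⟨hu, huc⟩⟩ hne
    have hPQ : P ⊆ Q := by
      rcases hP2 with h1 | ⟨u, hu, h1⟩
      · rw [h1]; exact empty_subset _
      · have h2 := hQ3
        rcases hQ2 with h3 | ⟨w, hw, h3⟩
        · rw [h3]; exact subset_univ _
        · rw [← h1, ← h3]
          refine hchain u hu w hw ?_
          rw [h1, h3]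
          omega
    obtain ⟨e, heQ, heP⟩ : ∃ e ∈ Q, e ∉ P := by
      by_contra h
      push Not at h
      have := card_le_card (show Q ⊆ P from h)
      omega
    -- the classification of the link
    have hcl : ∀ x ∈ lk (cmp (rb m)) F, x.1 ⊂ P ∨ Q ⊂ x.1 ∨ (P ⊂ x.1 ∧ x.1 ⊂ Q) := by
      intro x hx
      rw [mem_lkb] at hx
      have hx1 : P ⊂ x.1 ∨ x.1 ⊂ P := by
        rcases hP2 with h1 | ⟨u, hu, h1⟩
        · left; rw [h1, Finset.empty_ssubset]; exact x.2.1
        · rw [← h1]; exact (hx u hu).symm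
      have hx2 : x.1 ⊂ Q ∨ Q ⊂ x.1 := by
        rcases hQ2 with h1 | ⟨u, hu, h1⟩
        · left; rw [h1, Finset.ssubset_univ_iff]; exact x.2.2
        · rw [← h1]; exact hx u hu
      tauto
    have hgap : ∀ x : Vb m, P ⊂ x.1 → x.1 ⊂ Q → x ∈ lk (cmp (rb m)) F := by
      intro x h1 h2
      rw [mem_lkb]
      intro u hu
      rcases lt_trichotomy u.1.card (s.1 + 1) with h3 | h3 | h3
      · right; exact (hP3 u hu h3).trans_ssubset h1
      · exact absurd h3 (hs1 u hu)
      · left; exact h2.trans_subset (hQ3 u hu h3)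
    have hPQ' : P ⊂ Q := ⟨hPQ, fun h => heP (h heQ)⟩
    -- the coatom
    have hac : (Q.erase e).card = Q.card - 1 := card_erase_of_mem heQ
    have haP : P ⊂ Q.erase e := by
      refine ⟨fun x hx => mem_erase.mpr ⟨fun h => heP (h ▸ hx), hPQ hx⟩, fun h => ?_⟩
      have := card_le_card h
      omega
    have haQ : Q.erase e ⊂ Q := erase_ssubset heQ
    set a : Vb m := ⟨Q.erase e, by
      refine ⟨?_, ?_⟩
      · rw [← Finset.card_pos]; omega
      · intro h
        have := h ▸ mem_univ e
        exact notMem_erase e Q this⟩ with ha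
    have haL : a ∈ lk (cmp (rb m)) F := hgap a haP haQ
    -- the apex
    have hbc : (insert e P).card = P.card + 1 := card_insert_of_notMem heP
    have hbQ : insert e P ⊂ Q := by
      refine ⟨insert_subset heQ hPQ, fun h => ?_⟩
      have := card_le_card h
      omega
    set b : Vb m := ⟨insert e P, insert_nonempty _ _, by
      intro h
      rw [h] at hbQ
      exact hbQ.2 (subset_univ _)⟩ with hb
    have hbP : P ⊂ b.1 := ssubset_insert heP
    have hbL : b ∈ lk (cmp (rb m)) F := hgap b hbP hbQ
    set L : Set (Vb m) := lk (cmp (rb m)) F with hL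
    set A0 : Set (Vb m) := {x | x ∈ L ∧ (P ⊂ x.1 → x.1 ⊂ Q → e ∈ x.1)} with hA0
    have hA0c : ∀ x ∈ A0, x.1 ⊂ P ∨ Q ⊂ x.1 ∨ (P ⊂ x.1 ∧ x.1 ⊂ Q ∧ e ∈ x.1) := by
      rintro x ⟨hx1, hx2⟩
      rcases hcl x hx1 with h | h | h
      · exact Or.inl h
      · exact Or.inr (Or.inl h)
      · exact Or.inr (Or.inr ⟨h.1, h.2, hx2 h.1 h.2⟩)
    have hbA : b ∈ A0 := ⟨hbL, fun _ _ => mem_insert_self e P⟩
    have hcone : Acy (cmp (rb m)) A0 := by
      refine acy_cone hbA fun x hx hxb => ?_
      rw [adjb]
      rcases hA0c x hx with h | h | ⟨h1, h2, h3⟩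
      · right; exact h.trans hbP
      · left; exact hbQ.trans h
      · left
        refine (insert_subset h3 h1.subset).ssubset_of_ne fun h => hxb ?_
        exact Subtype.ext h.symm
    -- adding the other elements of the gap
    have key : ∀ t : Finset (Vb m), (∀ x ∈ t, P ⊂ x.1 ∧ x.1 ⊂ Q ∧ e ∉ x.1 ∧ x ≠ a) →
        Acy (cmp (rb m)) (A0 ∪ (t : Set (Vb m))) := by
      intro t
      refine Finset.induction_on_max_value (fun x : Vb m => x.1.card) (motive := fun t : Finset (Vb m) =>
        (∀ x ∈ t, P ⊂ x.1 ∧ x.1 ⊂ Q ∧ e ∉ x.1 ∧ x ≠ a) → Acy (cmp (rb m)) (A0 ∪ (t : Set (Vb m)))) t ?_ ?_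
      · intro _
        rw [Finset.coe_empty, Set.union_empty]
        exact hcone
      · intro τ t hτ hmax ih2 hx
        obtain ⟨t1, t2, t3, t4⟩ := hx τ (mem_insert_self τ t)
        have ht := ih2 fun x hx' => hx x (mem_insert_of_mem hx')
        have hτA : τ ∉ A0 ∪ (t : Set (Vb m)) := by
          rintro (h | h)
          · exact t3 (h.2 t1 t2)
          · exact hτ h
        rw [Finset.coe_insert, Set.union_insert]
        refine acy_insert hτA ht ?_
        -- the apex of the link
        have hcQ : insert e τ.1 ⊂ Q := by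
          refine (insert_subset heQ t2.subset).ssubset_of_ne fun h => t4 ?_
          apply Subtype.ext
          show τ.1 = Q.erase e
          rw [← h, erase_insert t3]
        set c : Vb m := ⟨insert e τ.1, insert_nonempty _ _, by
          intro h
          rw [h] at hcQ
          exact hcQ.2 (subset_univ _)⟩ with hc
        have hcP : P ⊂ c.1 := t1.trans (ssubset_insert t3)
        have hτc : τ.1 ⊂ c.1 := ssubset_insert t3
        refine acy_cone (v := c) ⟨Or.inl ⟨hgap c hcP hcQ, fun _ _ => mem_insert_self e τ.1⟩, ?_⟩ ?_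
        · show (cmp (rb m)).Adj τ c
          rw [adjb]
          exact Or.inl hτc
        · rintro x ⟨hx1, hx2⟩ hxc
          have hx2 : (cmp (rb m)).Adj τ x := hx2
          rw [adjb] at hx2 ⊢
          rcases hx1 with hx1 | hx1
          · rcases hA0c x hx1 with h | h | ⟨h1, h2, h3⟩
            · right; exact h.trans hcP
            · left; exact hcQ.trans h
            · rcases hx2 with h4 | h4
              · left
                refine (insert_subset h3 h4.subset).ssubset_of_ne fun h => hxc ?_
                exact Subtype.ext h.symm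
              · exact absurd (h4.subset h3) t3
          · have h5 := hmax x hx1
            rcases hx2 with h4 | h4
            · have := Finset.card_lt_card h4
              omega
            · right; exact h4.trans hτc
    -- the complement of `a` in the link
    have hA : Acy (cmp (rb m)) (L \ {a}) := by
      have h1 := key (univ.filter (fun x => P ⊂ x.1 ∧ x.1 ⊂ Q ∧ e ∉ x.1 ∧ x ≠ a))
        (fun x hx => (mem_filter.mp hx).2)
      have h2 : A0 ∪ ((univ.filter (fun x : Vb m => P ⊂ x.1 ∧ x.1 ⊂ Q ∧ e ∉ x.1 ∧ x ≠ a) : Finset (Vb m)) :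
          Set (Vb m)) = L \ {a} := by
        ext x
        constructor
        · rintro (h | h)
          · refine ⟨h.1, ?_⟩
            intro hxa
            rw [Set.mem_singleton_iff] at hxa
            have h3 := h.2 (by rw [hxa]; exact haP) (by rw [hxa]; exact haQ)
            rw [hxa] at h3
            exact notMem_erase e Q h3
          · rw [mem_coe, mem_filter] at h
            exact ⟨hgap x h.2.1 h.2.2.1, h.2.2.2.2⟩
        · rintro ⟨h3, h4⟩
          by_cases h5 : P ⊂ x.1 ∧ x.1 ⊂ Q ∧ e ∉ x.1
          · right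
            rw [mem_coe, mem_filter]
            exact ⟨mem_univ _, h5.1, h5.2.1, h5.2.2, h4⟩
          · left
            refine ⟨h3, fun h6 h7 => ?_⟩
            by_contra h8
            exact h5 ⟨h6, h7, h8⟩
      rwa [h2] at h1
    have hins : insert a (L \ {a}) = L := by
      ext x
      constructor
      · rintro (h | h)
        · rw [h]; exact haL
        · exact h.1
      · intro h
        by_cases h1 : x = a
        · exact Or.inl h1
        · exact Or.inr ⟨h, h1⟩
    obtain ⟨e1, e2⟩ := beta_insert (G := cmp (rb m)) (A := L \ {a}) (v := a) (fun h => h.2 rfl) hA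
    rw [hins] at e1 e2
    rcases i with _ | i
    · rw [e1, if_neg]
      omega
    · rw [e2]
      have haF : a ∉ F := fun h => (cmp (rb m)).loopless.irrefl a (haL a h)
      have hF' : (cmp (rb m)).IsClique ((insert a F : Finset (Vb m)) : Set (Vb m)) := by
        rw [Finset.coe_insert, SimpleGraph.isClique_insert]
        exact ⟨hF, fun b hb _ => haL b hb⟩
      have h1 : (L \ {a}) ∩ (cmp (rb m)).neighborSet a = lk (cmp (rb m)) (insert a F) := by
        ext x
        constructor
        · rintro ⟨⟨h2, _⟩, h3⟩ u hu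
          rcases mem_insert.mp hu with h4 | h4
          · rw [h4]; exact SimpleGraph.Adj.symm h3
          · exact h2 u h4
        · intro h2
          have h3 : (cmp (rb m)).Adj x a := h2 a (mem_insert_self a F)
          exact ⟨⟨fun u hu => h2 u (mem_insert_of_mem hu), h3.ne⟩, h3.symm⟩
      have hcard : (insert a F).card = F.card + 1 := card_insert_of_notMem haF
      rw [h1, ih (insert a F) hF' (by omega) hm i, hcard]
      have h2 : (i + (F.card + 1) = m - 1) ↔ (i + 1 + F.card = m - 1) := by omega
      simp only [h2]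

/-- the proper part of the Boolean lattice -/
theorem gor_bool (hm : 1 ≤ m) : GorStar (m - 1) (rb m) (rkb m) where
  trans := by
    intro x y z h1 h2
    have h1 : x.1 ⊂ y.1 := h1
    have h2 : y.1 ⊂ z.1 := h2
    exact h1.trans h2
  rk_lt := by
    intro x y h
    have h1 := Finset.card_lt_card h
    have h2 := x.card_pos
    show x.1.card - 1 < y.1.card - 1
    omega
  sphere := by
    intro F hF i
    have h1 := chain_card hF
    exact beta_lkb (m - 1 - F.card) F hF (by omega) hm i

end

/-- `ℓ²`-acyclicity for sets with an even number of elements -/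
theorem lv_bool {j : ℕ} (hj : 1 ≤ j) (i : ℕ) : LV (cmp (rb (2 * j))) i := by
  classical
  have : Finite (Vb (2 * j)) := by unfold Vb; infer_instance
  intro f o
  exact singerGor (2 * j - 1) (Vb (2 * j)) (rb (2 * j)) (rkb (2 * j)) (gor_bool (by omega)) i (by omega)

end Pool.Agent.R782.Bal
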