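import Pool.Agent.R782.Bal.Gam

/-!
# The alternating sum of the `h`-vector and the Charney-Davis quantity
-/

set_option autoImplicit false

namespace Pool.Agent.R782.Bal

open Finset Pool.Agent.W907.SG Pool.Agent.W907.SM Pool.Agent.W497.FS Pool.Agent.R781.CubeAQ
open Pool.Agent.TH652.Above (HSph)

open Classical in
/-- the number of the cliques of `G` with `j` vertices, that is of the faces of dimension `j - 1` of the flag
complex of `G` (`j = 0` is the empty face) -/
noncomputable def numCl {V : Type} [Fintype V] (G : SimpleGraph V) (j : ℕ) : ℕ :=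
  ((Finset.univ : Finset (Finset V)).filter fun T : Finset V => G.IsClique (T : Set V) ∧ T.card = j).card

/-- `h` is the `h`-vector of the flag complex of `G`, of dimension `d - 1` -/
def IsH {V : Type} [Fintype V] (G : SimpleGraph V) (d : ℕ) (h : ℕ → ℤ) : Prop :=
  ∑ i ∈ Finset.range (d + 1), Polynomial.C (h i) * Polynomial.X ^ (d - i) =
    ∑ i ∈ Finset.range (d + 1), Polynomial.C ((numCl G i : ℕ) : ℤ) * (Polynomial.X - 1) ^ (d - i)

theorem chiW_eq_numCl {V : Type} [Fintype V] (G : SimpleGraph V) {d : ℕ}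
    (hc : ∀ T : Finset V, G.IsClique (T : Set V) → T.card ≤ d) :
    chiW G = ∑ j ∈ Finset.range (d + 1), (numCl G j : ℚ) * (-1 / 2) ^ j := by
  classical
  unfold chiW numCl
  rw [← Finset.sum_filter]
  rw [← Finset.sum_fiberwise_of_maps_to (s := Finset.univ.filter (fun T : Finset V => G.IsClique (T : Set V)))
    (t := Finset.range (d + 1)) (g := fun σ => σ.card)
    (fun σ hσ => Finset.mem_range.mpr (by have := hc σ (Finset.mem_filter.mp hσ).2; omega))]
  refine Finset.sum_congr rfl fun j _ => ?_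
  rw [Finset.sum_congr rfl (g := fun _ => ((-1 / 2 : ℚ) ^ j))
    (fun σ hσ => by rw [(Finset.mem_filter.mp hσ).2]), Finset.sum_const, nsmul_eq_mul, Finset.filter_filter]

theorem h_alt {V : Type} [Fintype V] (G : SimpleGraph V) {e : ℕ}
    (hc : ∀ T : Finset V, G.IsClique (T : Set V) → T.card ≤ 2 * e) {h : ℕ → ℤ} (hh : IsH G (2 * e) h) :
    ((∑ i ∈ Finset.range (2 * e + 1), (-1) ^ i * h i : ℤ) : ℚ) = 4 ^ e * chiW G := by
  have h1 := congrArg (Polynomial.eval (-1 : ℤ)) hh
  rw [Polynomial.eval_finsetSum, Polynomial.eval_finsetSum] at h1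
  have h2 : ∑ i ∈ Finset.range (2 * e + 1), (-1) ^ i * h i = ∑ i ∈ Finset.range (2 * e + 1),
      Polynomial.eval (-1 : ℤ) (Polynomial.C (h i) * Polynomial.X ^ (2 * e - i)) := by
    refine Finset.sum_congr rfl fun i hi => ?_
    have hi' := Finset.mem_range.mp hi
    simp only [Polynomial.eval_mul, Polynomial.eval_C, Polynomial.eval_pow, Polynomial.eval_X]
    have h3 : (-1 : ℤ) ^ (2 * e - i) = (-1) ^ i := by
      have h4 : (-1 : ℤ) ^ (2 * e - i) * (-1) ^ i = 1 := by
        rw [← pow_add, show 2 * e - i + i = 2 * e by omega, pow_mul]; norm_num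
      have h5 : (-1 : ℤ) ^ i * (-1) ^ i = 1 := by rw [← mul_pow]; norm_num
      calc (-1 : ℤ) ^ (2 * e - i) = (-1 : ℤ) ^ (2 * e - i) * ((-1 : ℤ) ^ i * (-1) ^ i) := by rw [h5, mul_one]
        _ = ((-1 : ℤ) ^ (2 * e - i) * (-1) ^ i) * (-1) ^ i := by ring
        _ = _ := by rw [h4, one_mul]
    rw [h3, mul_comm]
  rw [h2, h1, chiW_eq_numCl G hc, Finset.mul_sum, Int.cast_sum]
  refine Finset.sum_congr rfl fun j hj => ?_
  have hj' := Finset.mem_range.mp hj
  simp only [Polynomial.eval_mul, Polynomial.eval_C, Polynomial.eval_pow, Polynomial.eval_X,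
      Polynomial.eval_sub, Polynomial.eval_one]
  push_cast
  have h5 : (4 : ℚ) ^ e * (-1 / 2) ^ j = (-2) ^ (2 * e - j) := by
    have h6 : (4 : ℚ) ^ e = (-2) ^ (2 * e - j) * (-2) ^ j := by
      rw [← pow_add, show 2 * e - j + j = 2 * e by omega, pow_mul]; norm_num
    rw [h6, mul_assoc, ← mul_pow]; norm_num
  rw [← h5]
  ring

/-- the inequality of Charney and Davis in terms of the `h`-vector -/
theorem h_alt_nonneg {e : ℕ} {V : Type} [Fintype V] [LinearOrder V] {G : SimpleGraph V}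
    (hS : HSph (2 * e) G) (hχ : 0 ≤ (-1 : ℚ) ^ e * chiW G) {h : ℕ → ℤ} (hh : IsH G (2 * e) h) :
    0 ≤ (-1) ^ e * ∑ i ∈ Finset.range (2 * e + 1), (-1) ^ i * h i := by
  have h1 := h_alt G (fun T hT => HSph_card hS hT) hh
  have h2 : (0 : ℚ) ≤ ((-1) ^ e * ∑ i ∈ Finset.range (2 * e + 1), (-1) ^ i * h i : ℤ) := by
    rw [Int.cast_mul, h1]
    have : (0 : ℚ) < 4 ^ e := by positivity
    calc (0 : ℚ) ≤ 4 ^ e * ((-1 : ℚ) ^ e * chiW G) := mul_nonneg this.le hχ
      _ = _ := by push_cast; ring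
  exact_mod_cast h2

end Pool.Agent.R782.Bal
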