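import Pool.Agent.R782.Bal.Multi
import Pool.Agent.W555.KS.Defs

/-!
# Balanced complexes with vanishing van Kampen obstruction have no generic top cycles
-/

set_option autoImplicit false
set_option linter.unusedSectionVars false

namespace Pool.Agent.R782.Bal

open Finset Pool.Agent.W555.KS

variable {N m : ℕ}

/-- sections of the colouring -/
def Sec (col : Fin N → Fin m) (p : Fin m → Fin N) : Prop := ∀ c, col (p c) = c

theorem Sec.inj {col : Fin N → Fin m} {p : Fin m → Fin N} (h : Sec col p) : Function.Injective p := by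
  intro a b hab
  rw [← h a, ← h b, hab]

theorem Sec.eq {col : Fin N → Fin m} {p q : Fin m → Fin N} (hp : Sec col p) (hq : Sec col q)
    (h : univ.image p = univ.image q) : p = q := by
  funext c
  have h1 : p c ∈ univ.image q := h ▸ mem_image_of_mem p (mem_univ c)
  obtain ⟨c', _, h2⟩ := mem_image.mp h1
  have h3 := hp c
  rw [← h2, hq c'] at h3
  rw [← h2, h3]

/-- rank counting -/
theorem card_lt {col : Fin N → Fin m} (hm : Monotone col) {q : Fin m → Fin N} (hq : Sec col q) (u : Fin N) :
    (univ.filter (fun c => q c < u)).card = (col u : ℕ) + if q (col u) < u then 1 else 0 := by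
  have h1 : ∀ c, c < col u → q c < u := by
    intro c hc
    by_contra h
    have h2 := hm (not_lt.mp h)
    rw [hq] at h2
    exact absurd hc (not_lt.mpr h2)
  have h2 : ∀ c, col u < c → ¬ q c < u := by
    intro c hc h
    have h2 := hm h.le
    rw [hq] at h2
    exact absurd hc (not_lt.mpr h2)
  split_ifs with h
  · have e : univ.filter (fun c => q c < u) = Finset.Iic (col u) := by
      ext c
      simp only [mem_filter, mem_univ, true_and, Finset.mem_Iic]
      constructor
      · intro h3
        by_contra h4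
        exact h2 c (not_le.mp h4) h3
      · intro h3
        rcases h3.lt_or_eq with h4 | h4
        · exact h1 c h4
        · rw [h4]; exact h
    rw [e, Fin.card_Iic]
  · have e : univ.filter (fun c => q c < u) = Finset.Iio (col u) := by
      ext c
      simp only [mem_filter, mem_univ, true_and, Finset.mem_Iio]
      constructor
      · intro h3
        rcases lt_trichotomy c (col u) with h4 | h4 | h4
        · exact h4
        · rw [h4] at h3
          exact absurd h3 h
        · exact absurd h3 (h2 c h4)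
      · exact h1 c
    rw [e, Fin.card_Iio]
    rfl

theorem card_lt_union {p q : Fin m → Fin N} (hp : Function.Injective p) (hq : Function.Injective q)
    (hd : Disjoint (univ.image p) (univ.image q)) (u : Fin N) :
    ((univ.image p ∪ univ.image q).filter (fun w => w < u)).card =
      (univ.filter (fun c => p c < u)).card + (univ.filter (fun c => q c < u)).card := by
  rw [filter_union, card_union_of_disjoint (disjoint_filter_filter hd), filter_image, filter_image,
    card_image_of_injective _ hp, card_image_of_injective _ hq]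

theorem disj_of_lt {col : Fin N → Fin m} {p q : Fin m → Fin N} (hp : Sec col p) (hq : Sec col q)
    (h : ∀ c, p c < q c) : Disjoint (univ.image p) (univ.image q) := by
  rw [disjoint_left]
  intro u h1 h2
  obtain ⟨c, _, rfl⟩ := mem_image.mp h1
  obtain ⟨c', _, h3⟩ := mem_image.mp h2
  have h4 := hp c
  rw [← h3, hq] at h4
  subst h4
  exact absurd h3.symm (h c').ne

theorem parts {col : Fin N → Fin m} (hm : Monotone col) {p q : Fin m → Fin N} (hp : Sec col p)
    (hq : Sec col q) (h : ∀ c, p c < q c) :
    evenPart (univ.image p ∪ univ.image q) = univ.image p ∧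
      oddPart (univ.image p ∪ univ.image q) = univ.image q := by
  have hd := disj_of_lt hp hq h
  have r1 : ∀ c, Even ((univ.image p ∪ univ.image q).filter (fun w => w < p c)).card := by
    intro c
    rw [card_lt_union hp.inj hq.inj hd, card_lt hm hp, card_lt hm hq, hp c, if_neg (lt_irrefl _),
      if_neg (h c).not_gt]
    exact ⟨c, by ring⟩
  have r2 : ∀ c, ¬ Even ((univ.image p ∪ univ.image q).filter (fun w => w < q c)).card := by
    intro c
    rw [card_lt_union hp.inj hq.inj hd, card_lt hm hp, card_lt hm hq, hq c, if_neg (lt_irrefl _),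
      if_pos (h c), Nat.not_even_iff_odd]
    exact ⟨c, by ring⟩
  constructor
  · ext u
    simp only [evenPart, mem_filter, mem_union]
    constructor
    · rintro ⟨h1 | h1, h2⟩
      · exact h1
      · obtain ⟨c, _, rfl⟩ := mem_image.mp h1
        exact absurd h2 (r2 c)
    · intro h1
      refine ⟨Or.inl h1, ?_⟩
      obtain ⟨c, _, rfl⟩ := mem_image.mp h1
      exact r1 c
  · ext u
    simp only [oddPart, mem_filter, mem_union]
    constructor
    · rintro ⟨h1 | h1, h2⟩
      · obtain ⟨c, _, rfl⟩ := mem_image.mp h1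
        exact absurd (r1 c) h2
      · exact h1
    · intro h1
      refine ⟨Or.inr h1, ?_⟩
      obtain ⟨c, _, rfl⟩ := mem_image.mp h1
      exact r2 c

theorem lt_of_parts {col : Fin N → Fin m} (hm : Monotone col) {p q : Fin m → Fin N} (hp : Sec col p)
    (hq : Sec col q) (U : Finset (Fin N)) (h1 : evenPart U = univ.image p) (h2 : oddPart U = univ.image q) :
    (∀ c, p c < q c) ∧ U = univ.image p ∪ univ.image q := by
  have hU : U = univ.image p ∪ univ.image q := by
    rw [← h1, ← h2]
    exact (filter_union_filter_not_eq _ U).symm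
  have hd : Disjoint (univ.image p) (univ.image q) := by
    rw [← h1, ← h2]
    exact disjoint_filter_filter_not _ _ _
  refine ⟨fun c => ?_, hU⟩
  have h3 : p c ∈ evenPart U := h1 ▸ mem_image_of_mem p (mem_univ c)
  have h4 := (mem_filter.mp h3).2
  rw [hU, card_lt_union hp.inj hq.inj hd, card_lt hm hp, card_lt hm hq, hp c, if_neg (lt_irrefl _)] at h4
  by_contra h5
  have h6 : p c ≠ q c := by
    intro e
    exact (disjoint_left.mp hd) (mem_image_of_mem p (mem_univ c)) (e ▸ mem_image_of_mem q (mem_univ c))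
  have h7 : q c < p c := lt_of_le_of_ne (not_lt.mp h5) h6.symm
  rw [if_pos h7] at h4
  rw [Nat.even_iff] at h4
  omega

section Z

variable {K : Type} [Field K] (col : Fin N → Fin m) (τ : Fin N → K)

/-- the slope of the vertex of `σ` of colour `c` -/
def tc (c : Fin m) (σ : Finset (Fin N)) : K := ∑ v ∈ σ.filter (fun v => col v = c), τ v

theorem tc_image {p : Fin m → Fin N} (hp : Sec col p) (c : Fin m) : tc col τ c (univ.image p) = τ (p c) := by
  have e : (univ.image p).filter (fun v => col v = c) = {p c} := by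
    ext v
    simp only [mem_filter, mem_image, mem_univ, true_and, mem_singleton]
    constructor
    · rintro ⟨⟨a, rfl⟩, h⟩
      rw [hp] at h
      rw [h]
    · rintro rfl
      exact ⟨⟨c, rfl⟩, hp c⟩
  rw [tc, e, sum_singleton]

theorem tc_insert (c : Fin m) (σ : Finset (Fin N)) (v : Fin N) (hv : v ∉ σ) :
    tc col τ c (insert v σ) = (if col v = c then τ v else 0) + tc col τ c σ := by
  rw [tc, tc, filter_insert]
  split_ifs with h
  · rw [sum_insert (by simp [hv])]
  · rw [zero_add]

/-- the symmetric cycle -/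
def ZZ (x : Finset (Fin N) → K) (σ σ' : Finset (Fin N)) : K :=
  x σ * x σ' * ∏ c, (tc col τ c σ + tc col τ c σ')

variable {col τ}

theorem ZZ_cycle [CharP K 2] {x : Finset (Fin N) → K}
    (hs : ∀ T, x T ≠ 0 → ∃ p, Sec col p ∧ T = univ.image p)
    (h1 : ∀ ρ : Finset (Fin N), ρ.card + 1 = m → ∑ v ∈ ρᶜ, x (insert v ρ) = 0)
    (h2 : ∀ ρ : Finset (Fin N), ρ.card + 1 = m → ∑ v ∈ ρᶜ, τ v * x (insert v ρ) = 0)
    (ρ σ : Finset (Fin N)) (hd : Disjoint ρ σ) (hc : ρ.card + σ.card + 1 = 2 * m) :
    ∑ v ∈ (ρ ∪ σ)ᶜ, ZZ col τ x (insert v ρ) σ = 0 := by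
  by_cases hσ : x σ = 0
  · refine sum_eq_zero fun v _ => ?_
    simp [ZZ, hσ]
  obtain ⟨q, hq, rfl⟩ := hs σ hσ
  have hcq : (univ.image q).card = m := by
    rw [card_image_of_injective _ hq.inj, card_univ, Fintype.card_fin]
  have hρ : ρ.card + 1 = m := by omega
  by_cases hall : ∀ v ∈ ρᶜ, x (insert v ρ) = 0
  · refine sum_eq_zero fun v hv => ?_
    rw [ZZ, hall v (by simp only [mem_compl, mem_union, not_or] at hv ⊢; exact hv.1)]
    ring
  push Not at hall
  obtain ⟨v0, hv0, hx0⟩ := hall
  rw [mem_compl] at hv0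
  obtain ⟨p, hp, hpe⟩ := hs _ hx0
  set c0 := col v0 with hc0
  have hpv : p c0 = v0 := by
    have h3 : v0 ∈ univ.image p := hpe ▸ mem_insert_self v0 ρ
    obtain ⟨c, _, h4⟩ := mem_image.mp h3
    have h5 : c = c0 := by rw [hc0, ← h4, hp c]
    rw [← h5, h4]
  have hρc : ∀ w ∈ ρ, col w ≠ c0 := by
    intro w hw hwc
    have h3 : w ∈ univ.image p := hpe ▸ mem_insert_of_mem hw
    obtain ⟨c, _, h4⟩ := mem_image.mp h3
    have h5 : c = c0 := by rw [← hwc, ← h4, hp c]
    rw [h5, hpv] at h4
    exact hv0 (h4 ▸ hw)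
  have hcol : ∀ v, x (insert v ρ) ≠ 0 → col v = c0 := by
    intro v hv
    obtain ⟨p', hp', hpe'⟩ := hs _ hv
    have h3 : p' c0 ∈ insert v ρ := hpe' ▸ mem_image_of_mem p' (mem_univ c0)
    rcases mem_insert.mp h3 with h4 | h4
    · rw [← h4, hp']
    · exact absurd (hp' c0) (hρc _ h4)
  have ht0 : tc col τ c0 ρ = 0 := by
    rw [tc]
    refine sum_eq_zero fun w hw => ?_
    rw [mem_filter] at hw
    exact absurd hw.2 (hρc w hw.1)
  have key : ∀ v, v ∉ ρ → ZZ col τ x (insert v ρ) (univ.image q) =
      (x (univ.image q) * ∏ c ∈ univ.erase c0, (tc col τ c ρ + tc col τ c (univ.image q))) *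
        ((τ v + τ (q c0)) * x (insert v ρ)) := by
    intro v hv
    by_cases hxv : x (insert v ρ) = 0
    · simp [ZZ, hxv]
    have hcv := hcol v hxv
    rw [ZZ, ← mul_prod_erase univ _ (mem_univ c0)]
    have e1 : tc col τ c0 (insert v ρ) = τ v := by
      rw [tc_insert col τ c0 ρ v hv, if_pos hcv, ht0, add_zero]
    have e2 : ∏ c ∈ univ.erase c0, (tc col τ c (insert v ρ) + tc col τ c (univ.image q)) =
        ∏ c ∈ univ.erase c0, (tc col τ c ρ + tc col τ c (univ.image q)) := by
      refine prod_congr rfl fun c hc => ?_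
      rw [tc_insert col τ c ρ v hv, if_neg, zero_add]
      rw [hcv]
      exact (ne_of_mem_erase hc).symm
    rw [e1, e2, tc_image col τ hq]
    ring
  have e1 : ∑ v ∈ (ρ ∪ univ.image q)ᶜ, ZZ col τ x (insert v ρ) (univ.image q) =
      ∑ v ∈ ρᶜ, ZZ col τ x (insert v ρ) (univ.image q) := by
    refine sum_subset ?_ ?_
    · intro v hv
      simp only [mem_compl, mem_union, not_or] at hv ⊢
      exact hv.1
    · intro v hv hv2
      rw [mem_compl] at hv
      simp only [mem_compl, mem_union, not_or, not_and, not_not] at hv2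
      have h3 := hv2 hv
      rw [key v hv]
      by_cases hxv : x (insert v ρ) = 0
      · rw [hxv]; ring
      · obtain ⟨c, _, h4⟩ := mem_image.mp h3
        have h5 : c = c0 := by rw [← hcol v hxv, ← h4, hq c]
        rw [← h4, h5, CharTwo.add_self_eq_zero, zero_mul, mul_zero]
  rw [e1, sum_congr rfl fun v hv => key v (mem_compl.mp hv), ← mul_sum]
  simp only [add_mul, sum_add_distrib]
  rw [h2 ρ hρ, ← mul_sum, h1 ρ hρ]
  ring

theorem ZZ_symm (x : Finset (Fin N) → K) (σ σ' : Finset (Fin N)) : ZZ col τ x σ σ' = ZZ col τ x σ' σ := by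
  rw [ZZ, ZZ, mul_comm (x σ)]
  congr 1
  exact prod_congr rfl fun c _ => add_comm _ _

/-- the function on tuples -/
noncomputable def XX (col : Fin N → Fin m) (x : Finset (Fin N) → K) (p : Fin m → Fin N) : K :=
  open Classical in if Sec col p then x (univ.image p) else 0

theorem XX_cond {x : Finset (Fin N) → K}
    (hs : ∀ T, x T ≠ 0 → ∃ p, Sec col p ∧ T = univ.image p)
    (h1 : ∀ ρ : Finset (Fin N), ρ.card + 1 = m → ∑ v ∈ ρᶜ, x (insert v ρ) = 0)
    (h2 : ∀ ρ : Finset (Fin N), ρ.card + 1 = m → ∑ v ∈ ρᶜ, τ v * x (insert v ρ) = 0) :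
    Cond τ m (XX col x) := by
  classical
  intro c p
  by_cases hp : ∀ c', c' ≠ c → col (p c') = c'
  · set ρ := (univ.erase c).image p with hρ
    have hinj : Set.InjOn p ((univ.erase c : Finset (Fin m)) : Set (Fin m)) := by
      intro a ha b hb hab
      rw [mem_coe, mem_erase] at ha hb
      rw [← hp a ha.1, ← hp b hb.1, hab]
    have hcard : ρ.card + 1 = m := by
      rw [hρ, card_image_of_injOn hinj, card_erase_of_mem (mem_univ c), card_univ, Fintype.card_fin]
      have := c.pos
      omega
    have hρc : ∀ w ∈ ρ, col w ≠ c := by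
      intro w hw
      rw [hρ, mem_image] at hw
      obtain ⟨a, ha, rfl⟩ := hw
      rw [hp a (ne_of_mem_erase ha)]
      exact ne_of_mem_erase ha
    have himg : ∀ v, univ.image (Function.update p c v) = insert v ρ := by
      intro v
      rw [← insert_erase (mem_univ c), image_insert, Function.update_self, hρ]
      congr 1
      refine image_congr ?_
      intro a ha
      rw [mem_coe, mem_erase] at ha
      exact Function.update_of_ne ha.1 v p
    have hval : ∀ v, XX col x (Function.update p c v) = if v ∈ ρ then 0 else x (insert v ρ) := by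
      intro v
      rw [XX]
      by_cases hv : col v = c
      · have hS : Sec col (Function.update p c v) := by
          intro a
          by_cases ha : a = c
          · rw [ha, Function.update_self, hv]
          · rw [Function.update_of_ne ha, hp a ha]
        rw [if_pos hS, himg, if_neg]
        intro h
        exact hρc v h hv
      · have hS : ¬ Sec col (Function.update p c v) := by
          intro h
          have := h c
          rw [Function.update_self] at this
          exact hv this
        rw [if_neg hS]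
        split_ifs with h
        · rfl
        · by_contra hne
          obtain ⟨p', hp', hpe⟩ := hs _ (Ne.symm hne)
          have h3 : p' c ∈ insert v ρ := hpe ▸ mem_image_of_mem p' (mem_univ c)
          rcases mem_insert.mp h3 with h4 | h4
          · exact hv (by rw [← h4, hp'])
          · exact hρc _ h4 (hp' c)
    simp only [hval]
    constructor
    · refine Eq.trans ?_ (h1 ρ hcard)
      rw [← sum_subset (subset_univ ρᶜ)]
      · refine sum_congr rfl fun v hv => ?_
        rw [if_neg (mem_compl.mp hv)]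
      · intro v _ hv
        rw [mem_compl, not_not] at hv
        rw [if_pos hv]
    · refine Eq.trans ?_ (h2 ρ hcard)
      rw [← sum_subset (subset_univ ρᶜ)]
      · refine sum_congr rfl fun v hv => ?_
        rw [if_neg (mem_compl.mp hv)]
      · intro v _ hv
        rw [mem_compl, not_not] at hv
        rw [if_pos hv, mul_zero]
  · push Not at hp
    obtain ⟨c', hc', hpc⟩ := hp
    have h0 : ∀ v, XX col x (Function.update p c v) = 0 := by
      intro v
      rw [XX, if_neg]
      intro h
      have := h c'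
      rw [Function.update_of_ne hc'] at this
      exact hpc this
    simp [h0]

theorem sum_parts (hm : Monotone col) {x : Finset (Fin N) → K}
    (hs : ∀ T, x T ≠ 0 → ∃ p, Sec col p ∧ T = univ.image p) :
    ∑ U ∈ powersetCard (2 * m) univ, ZZ col τ x (evenPart U) (oddPart U) = FF τ m (XX col x) (XX col x) := by
  classical
  rw [FF_eq, ← Fintype.sum_prod_type']
  have hz : ∀ y : (Fin m → Fin N) × (Fin m → Fin N),
      y ∉ (univ : Finset ((Fin m → Fin N) × (Fin m → Fin N))).filter
        (fun y => Sec col y.1 ∧ Sec col y.2 ∧ ∀ c, y.1 c < y.2 c) →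
      (if ∀ c, y.1 c < y.2 c then (∏ c, (τ (y.1 c) + τ (y.2 c))) * (XX col x y.1 * XX col x y.2) else 0) = 0 := by
    intro y hy
    rw [mem_filter, not_and] at hy
    have hy := hy (mem_univ _)
    split_ifs with h
    · by_cases h1 : Sec col y.1
      · by_cases h2 : Sec col y.2
        · exact absurd ⟨h1, h2, h⟩ hy
        · rw [XX, XX, if_neg h2]; ring
      · rw [XX, if_neg h1]; ring
    · rfl
  rw [← sum_subset (subset_univ _) (fun y _ hy => hz y hy)]
  symm
  refine sum_of_injOn (fun y => univ.image y.1 ∪ univ.image y.2) ?_ ?_ ?_ ?_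
  · intro y hy y' hy' h
    rw [mem_coe, mem_filter] at hy hy'
    obtain ⟨_, a1, a2, a3⟩ := hy
    obtain ⟨_, b1, b2, b3⟩ := hy'
    have e1 := parts hm a1 a2 a3
    have e2 := parts hm b1 b2 b3
    have h' : univ.image y.1 ∪ univ.image y.2 = univ.image y'.1 ∪ univ.image y'.2 := h
    rw [h'] at e1
    exact Prod.ext (a1.eq b1 (e1.1.symm.trans e2.1)) (a2.eq b2 (e1.2.symm.trans e2.2))
  · intro y hy
    rw [mem_coe, mem_filter] at hy
    obtain ⟨_, a1, a2, a3⟩ := hy
    rw [mem_coe, mem_powersetCard]
    refine ⟨subset_univ _, ?_⟩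
    rw [card_union_of_disjoint (disj_of_lt a1 a2 a3), card_image_of_injective _ a1.inj,
      card_image_of_injective _ a2.inj, card_univ, Fintype.card_fin]
    ring
  · intro U _ hU
    by_contra hne
    have hxe : x (evenPart U) ≠ 0 := by
      intro h; exact hne (by simp [ZZ, h])
    have hxo : x (oddPart U) ≠ 0 := by
      intro h; exact hne (by simp [ZZ, h])
    obtain ⟨p, hp, hpe⟩ := hs _ hxe
    obtain ⟨q, hq, hqe⟩ := hs _ hxo
    obtain ⟨h1, h2⟩ := lt_of_parts hm hp hq U hpe hqe
    apply hU
    refine ⟨(p, q), ?_, h2.symm⟩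
    rw [mem_coe, mem_filter]
    exact ⟨mem_univ _, hp, hq, h1⟩
  · intro y hy
    rw [mem_filter] at hy
    obtain ⟨_, a1, a2, a3⟩ := hy
    obtain ⟨e1, e2⟩ := parts hm a1 a2 a3
    rw [if_pos a3]
    show _ = ZZ col τ x (evenPart (univ.image y.1 ∪ univ.image y.2)) (oddPart (univ.image y.1 ∪ univ.image y.2))
    rw [e1, e2, ZZ, XX, XX, if_pos a1, if_pos a2, mul_comm]
    congr 1
    refine prod_congr rfl fun c _ => ?_
    rw [tc_image col τ a1, tc_image col τ a2]

/-- **KEY**: the quadratic identity for the top cycles -/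
theorem key_sum [CharP K 2] {L : Finset (Finset (Fin N))} (hVK : VK L (2 * m)) (hm : Monotone col)
    {x : Finset (Fin N) → K}
    (hL : ∀ T, x T ≠ 0 → T ∈ L)
    (hs : ∀ T, x T ≠ 0 → ∃ p, Sec col p ∧ T = univ.image p)
    (h1 : ∀ ρ : Finset (Fin N), ρ.card + 1 = m → ∑ v ∈ ρᶜ, x (insert v ρ) = 0)
    (h2 : ∀ ρ : Finset (Fin N), ρ.card + 1 = m → ∑ v ∈ ρᶜ, τ v * x (insert v ρ) = 0) :
    ∑ T : Finset (Fin N), (∏ v ∈ T, τ v) * x T ^ 2 = 0 := by
  classical
  have hV := hVK K (ZZ col τ x) (ZZ_symm x) (by
    intro σ σ' h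
    constructor
    · refine hL σ fun h0 => h (by simp [ZZ, h0])
    · refine hL σ' fun h0 => h (by simp [ZZ, h0])) (by
    intro ρ σ hd hc
    rw [sum_add_distrib, ZZ_cycle hs h1 h2 ρ σ hd hc, zero_add]
    have h3 := ZZ_cycle hs h1 h2 σ ρ hd.symm (by omega)
    rw [union_comm, ← h3]
    exact sum_congr rfl fun v _ => ZZ_symm x _ _)
  rw [sum_parts hm hs, FF_self m _ (XX_cond hs h1 h2)] at hV
  rw [← hV]
  have hz : ∀ p : Fin m → Fin N, p ∉ (univ : Finset (Fin m → Fin N)).filter (fun p => Sec col p) →
      (∏ c, τ (p c)) * XX col x p ^ 2 = 0 := by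
    intro p hp
    rw [mem_filter, not_and] at hp
    rw [XX, if_neg (hp (mem_univ _))]
    ring
  rw [← sum_subset (subset_univ _) (fun y _ hy => hz y hy)]
  symm
  refine sum_of_injOn (fun p => univ.image p) ?_ ?_ ?_ ?_
  · intro p hp q hq h
    rw [mem_coe, mem_filter] at hp hq
    exact hp.2.eq hq.2 h
  · intro p _
    exact mem_coe.mpr (mem_univ _)
  · intro T _ hT
    have : x T = 0 := by
      by_contra hne
      obtain ⟨p, hp, hpe⟩ := hs _ hne
      exact hT ⟨p, by rw [mem_coe, mem_filter]; exact ⟨mem_univ _, hp⟩, hpe.symm⟩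
    rw [this]
    ring
  · intro p hp
    rw [mem_filter] at hp
    rw [XX, if_pos hp.2, prod_image (fun a _ b _ h => hp.2.inj h)]

end Z

end Pool.Agent.R782.Bal
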