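import Pool.Agent.R782.Bal.Main

/-!
# Links in colourwise barycentric subdivisions
-/

set_option autoImplicit false
set_option linter.unusedSectionVars false

namespace Pool.Agent.R782.Bal

open Finset Pool.Agent.W907.SG Pool.Agent.W907.SM
open Pool.Agent.TH652.Join (join ljoin)
open Pool.Agent.TH652.Above (lv_img lv_set lv_univ)

variable {N k : ℕ} {X : Finset (Finset (Fin N))} {col : Fin N → Fin k}

/-! ### intervals -/

theorem lv_interval (hX : ∀ σ ∈ X, ∀ τ : Finset (Fin N), τ ⊆ σ → τ ∈ X) (σ : MF X col) (B : Finset (Fin N))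
    (hB : B ⊂ σ.1) (hσ : Even (σ.1 \ B).card) (i : ℕ) :
    LV ((cs X col).induce {τ | B ⊂ τ.1 ∧ τ.1 ⊂ σ.1}) i := by
  classical
  obtain ⟨j, hj⟩ := hσ
  have hj' : (σ.1 \ B).card = 2 * j := by omega
  have hpos : 0 < (σ.1 \ B).card := Finset.card_pos.mpr (sdiff_nonempty.mpr hB.2)
  have h0 := lv_bool (j := j) (by omega) i
  set e : Fin (2 * j) ↪ Fin N := ((σ.1 \ B).orderEmbOfFin hj').toEmbedding with he
  have hr0 : ∀ τ : Finset (Fin (2 * j)), τ.map e ⊆ σ.1 \ B := by
    intro τ v hv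
    obtain ⟨w, _, rfl⟩ := mem_map.mp hv
    exact (σ.1 \ B).orderEmbOfFin_mem hj' w
  have hr : ∀ τ : Finset (Fin (2 * j)), B ∪ τ.map e ⊆ σ.1 := fun τ =>
    union_subset hB.subset ((hr0 τ).trans sdiff_subset)
  have hfull : (univ : Finset (Fin (2 * j))).map e = σ.1 \ B := by
    refine eq_of_subset_of_card_le (hr0 _) ?_
    rw [card_map, card_univ, Fintype.card_fin, hj']
  have hsub : ∀ τ τ' : Finset (Fin (2 * j)), B ∪ τ.map e ⊆ B ∪ τ'.map e ↔ τ ⊆ τ' := by
    intro τ τ'
    constructor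
    · intro h w hw
      have h1 : e w ∈ τ.map e := mem_map_of_mem e hw
      rcases mem_union.mp (h (mem_union_right _ h1)) with h2 | h2
      · exact absurd h2 (mem_sdiff.mp (hr0 _ h1)).2
      · exact (mem_map' e).mp h2
    · intro h
      exact union_subset_union_right (map_subset_map.mpr h)
  set f : Vb (2 * j) → MF X col := fun τ => ⟨B ∪ τ.1.map e, hX _ σ.2.1 _ (hr _),
    (τ.2.1.map (f := e)).mono subset_union_right,
    fun v hv w hw => σ.2.2.2 v (hr _ hv) w (hr _ hw)⟩ with hf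
  have hfs : ∀ τ τ' : Vb (2 * j), (f τ).1 ⊆ (f τ').1 ↔ τ.1 ⊆ τ'.1 := fun τ τ' => hsub _ _
  have hfi : ∀ τ τ' : Vb (2 * j), f τ = f τ' → τ = τ' := by
    intro τ τ' h
    refine Subtype.ext (Finset.Subset.antisymm ((hfs τ τ').mp ?_) ((hfs τ' τ).mp ?_))
    · rw [h]
    · rw [h]
  rw [← lv_univ] at h0
  have h1 := (lv_img (G := cs X col) f Set.univ (fun a _ b _ h => hfi a b h) ?_ i).1 h0
  · refine lv_set ?_ h1
    ext τ
    constructor
    · rintro ⟨hBτ, hτ⟩
      have hm : (univ.filter (fun w => e w ∈ τ.1)).map e = τ.1 \ B := by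
        ext v
        rw [mem_map]
        constructor
        · rintro ⟨w, hw, rfl⟩
          refine mem_sdiff.mpr ⟨(mem_filter.mp hw).2, ?_⟩
          exact (mem_sdiff.mp (hr0 univ (mem_map_of_mem e (mem_univ w)))).2
        · intro hv
          rw [mem_sdiff] at hv
          have h2 : v ∈ (univ : Finset (Fin (2 * j))).map e := by
            rw [hfull, mem_sdiff]
            exact ⟨hτ.subset hv.1, hv.2⟩
          obtain ⟨w, _, rfl⟩ := mem_map.mp h2
          exact ⟨w, mem_filter.mpr ⟨mem_univ _, hv.1⟩, rfl⟩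
      have hm2 : B ∪ (univ.filter (fun w => e w ∈ τ.1)).map e = τ.1 := by
        rw [hm, union_sdiff_of_subset hBτ.subset]
      refine ⟨⟨univ.filter (fun w => e w ∈ τ.1), ?_, ?_⟩, trivial, Subtype.ext hm2⟩
      · have h2 : (τ.1 \ B).Nonempty := sdiff_nonempty.mpr hBτ.2
        rw [← hm] at h2
        exact map_nonempty.mp h2
      · intro h2
        rw [h2, hfull, union_sdiff_of_subset hB.subset] at hm2
        exact hτ.ne hm2.symm
    · rintro ⟨τ', _, rfl⟩
      refine ⟨subset_union_left.ssubset_of_ne fun h2 => ?_, (hr _).ssubset_of_ne fun h2 => τ'.2.2 ?_⟩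
      · obtain ⟨w, hw⟩ := τ'.2.1
        have h3 : e w ∈ B := by
          have h4 : e w ∈ B ∪ τ'.1.map e := mem_union_right _ (mem_map_of_mem e hw)
          have h5 : B = B ∪ τ'.1.map e := h2
          rw [← h5] at h4
          exact h4
        exact (mem_sdiff.mp (hr0 univ (mem_map_of_mem e (mem_univ w)))).2 h3
      · have h3 : σ.1 ⊆ B ∪ τ'.1.map e := by
          have h4 : B ∪ τ'.1.map e = σ.1 := h2
          rw [h4]
        refine eq_univ_iff_forall.mpr fun w => ?_
        have h4 : e w ∈ σ.1 \ B := hr0 univ (mem_map_of_mem e (mem_univ w))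
        rw [mem_sdiff] at h4
        rcases mem_union.mp (h3 h4.1) with h5 | h5
        · exact absurd h5 h4.2
        · exact (mem_map' e).mp h5
  · intro a _ b _
    rw [adjb]
    constructor
    · intro h
      have hne : a ≠ b := fun h2 => h.1 (by rw [h2])
      have h3 := h.2.2 fun v hv w hw => σ.2.2.2 v (hr _ hv) w (hr _ hw)
      rw [hfs, hfs] at h3
      rcases h3 with h3 | h3
      · exact Or.inl (h3.ssubset_of_ne fun h4 => hne (Subtype.ext h4))
      · exact Or.inr (h3.ssubset_of_ne fun h4 => hne (Subtype.ext h4.symm))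
    · intro h
      have hne : a ≠ b := by
        rintro rfl
        rcases h with h | h <;> exact h.2 (Finset.Subset.refl _)
      refine ⟨fun h2 => hne (hfi _ _ h2), hX _ σ.2.1 _ (union_subset (hr _) (hr _)), fun _ => ?_⟩
      rw [hfs, hfs]
      exact h.imp (fun h => h.subset) (fun h => h.subset)

/-! ### a set which is a join with an acyclic set -/

theorem lv_join_set {V : Type} [Finite V] (G : SimpleGraph V) (M B : Set V) (hB : B ⊆ M)
    (h2 : ∀ x ∈ B, ∀ w ∈ M, w ∉ B → G.Adj w x) (h3 : ∀ i, LV (G.induce B) i) (j : ℕ) :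
    LV (G.induce M) j := by
  classical
  have hj : LV (join (G.induce B) (G.induce (M \ B))) j :=
    ljoin _ _ j fun p q _ => Or.inl (h3 p)
  rw [← lv_univ] at hj
  have h5 := (lv_img (G := G) (fun x : ↥B ⊕ ↥(M \ B) => match x with
    | Sum.inl a => a.1
    | Sum.inr b => b.1) Set.univ ?_ ?_ j).1 hj
  · refine lv_set ?_ h5
    ext x
    simp only [Set.mem_image, Set.mem_univ, true_and]
    constructor
    · intro hx
      by_cases hxl : x ∈ B
      · exact ⟨Sum.inl ⟨x, hxl⟩, rfl⟩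
      · exact ⟨Sum.inr ⟨x, hx, hxl⟩, rfl⟩
    · rintro ⟨y | y, rfl⟩
      · exact hB y.2
      · exact y.2.1
  · rintro (u | u) _ (w | w) _ huw
    · exact congrArg Sum.inl (Subtype.ext huw)
    · exfalso
      have h6 : u.1 = w.1 := huw
      exact w.2.2 (h6 ▸ u.2)
    · exfalso
      have h6 : u.1 = w.1 := huw
      exact u.2.2 (h6 ▸ w.2)
    · exact congrArg Sum.inr (Subtype.ext huw)
  · rintro (u | u) _ (w | w) _
    · exact Iff.rfl
    · exact iff_of_true (h2 u.1 u.2 w.1 w.2.1 w.2.2).symm trivial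
    · exact iff_of_true (h2 w.1 w.2 u.1 u.2.1 u.2.2) trivial
    · exact Iff.rfl

/-! ### the elements of a clique below a vertex -/

/-- `σ` is an element of `T` or adjacent to all the elements of `T` -/
def Cmp (T : Finset (MF X col)) (σ : MF X col) : Prop := ∀ τ ∈ T, τ = σ ∨ (cs X col).Adj τ σ

/-- the union of the elements of `T` which are properly contained in `σ` -/
def bs (T : Finset (MF X col)) (σ : MF X col) : Finset (Fin N) :=
  open Classical in (T.filter (fun τ => τ.1 ⊂ σ.1)).biUnion (fun τ => τ.1)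

/-- the number of the elements of `T` which are properly contained in `σ` -/
noncomputable def nb (T : Finset (MF X col)) (σ : MF X col) : ℕ :=
  open Classical in (T.filter (fun τ => τ.1 ⊂ σ.1)).card

theorem mc_of_sub {σ τ : MF X col} (h : σ.1 ⊆ τ.1) : mc σ = mc τ := by
  obtain ⟨v, hv⟩ := σ.2.2.1
  rw [← mc_eq σ hv, mc_eq τ (h hv)]

theorem adj_of_ssub {σ τ : MF X col} (h : σ.1 ⊂ τ.1) : (cs X col).Adj σ τ :=
  ⟨fun e => h.ne (congrArg Subtype.val e), by rw [union_eq_right.mpr h.subset]; exact τ.2.1,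
    fun _ => Or.inl h.subset⟩

/-- comparability -/
theorem comp {σ τ : MF X col} (h : (cs X col).Adj σ τ) (hc : mc σ = mc τ) : σ.1 ⊂ τ.1 ∨ τ.1 ⊂ σ.1 := by
  rcases adj_same h hc with h1 | h1
  · exact Or.inl (h1.ssubset_of_ne fun e => h.1 (Subtype.ext e))
  · exact Or.inr (h1.ssubset_of_ne fun e => h.1 (Subtype.ext e.symm))

variable {T : Finset (MF X col)} (hT : (cs X col).IsClique (T : Set (MF X col)))

include hT

theorem cmp_of_mem {σ : MF X col} (h : σ ∈ T) : Cmp T σ := by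
  intro τ hτ
  by_cases e : τ = σ
  · exact Or.inl e
  · exact Or.inr (hT hτ h e)

theorem bs_cases (σ : MF X col) : (bs T σ = ∅ ∧ nb T σ = 0 ∧ ∀ τ ∈ T, ¬ τ.1 ⊂ σ.1) ∨
    ∃ τ0 ∈ T, τ0.1 ⊂ σ.1 ∧ bs T σ = τ0.1 ∧ nb T σ = nb T τ0 + 1 ∧ ∀ τ ∈ T, τ.1 ⊂ σ.1 → τ = τ0 ∨ τ.1 ⊂ τ0.1 := by
  classical
  rcases (T.filter (fun τ => τ.1 ⊂ σ.1)).eq_empty_or_nonempty with h | h
  · left
    have hno : ∀ τ ∈ T, ¬ τ.1 ⊂ σ.1 := by
      intro τ hτ hs
      have : τ ∈ (T.filter (fun τ => τ.1 ⊂ σ.1)) := mem_filter.mpr ⟨hτ, hs⟩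
      rw [h] at this
      exact notMem_empty _ this
    refine ⟨?_, ?_, hno⟩
    · rw [bs, Finset.eq_empty_iff_forall_notMem]
      intro v hv
      obtain ⟨τ, hτ, _⟩ := mem_biUnion.mp hv
      exact hno τ (mem_filter.mp hτ).1 (mem_filter.mp hτ).2
    · rw [nb, card_eq_zero, Finset.eq_empty_iff_forall_notMem]
      intro τ hτ
      exact hno τ (mem_filter.mp hτ).1 (mem_filter.mp hτ).2
  · right
    obtain ⟨τ0, h0, hmax⟩ := exists_max_image _ (fun τ : MF X col => τ.1.card) h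
    rw [mem_filter] at h0
    have h3 : ∀ τ ∈ T, τ.1 ⊂ σ.1 → τ = τ0 ∨ τ.1 ⊂ τ0.1 := by
      intro τ hτ hs
      by_cases e : τ = τ0
      · exact Or.inl e
      · right
        have h4 : mc τ = mc τ0 := by rw [mc_of_sub hs.subset, mc_of_sub h0.2.subset]
        rcases comp (hT hτ h0.1 e) h4 with h5 | h5
        · exact h5
        · exact absurd (hmax τ (mem_filter.mpr ⟨hτ, hs⟩)) (not_le.mpr (card_lt_card h5))
    refine ⟨τ0, h0.1, h0.2, ?_, ?_, h3⟩
    · rw [bs]
      ext v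
      rw [mem_biUnion]
      constructor
      · rintro ⟨τ, hτ, hv⟩
        rw [mem_filter] at hτ
        rcases h3 τ hτ.1 hτ.2 with rfl | h4
        · exact hv
        · exact h4.subset hv
      · intro hv
        exact ⟨τ0, mem_filter.mpr h0, hv⟩
    · rw [nb, nb]
      have e : (T.filter (fun τ => τ.1 ⊂ σ.1)) = insert τ0 (T.filter (fun τ => τ.1 ⊂ τ0.1)) := by
        ext τ
        rw [mem_insert, mem_filter, mem_filter]
        constructor
        · rintro ⟨h4, h5⟩
          rcases h3 τ h4 h5 with h6 | h6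
          · exact Or.inl h6
          · exact Or.inr ⟨h4, h6⟩
        · rintro (rfl | ⟨h4, h5⟩)
          · exact h0
          · exact ⟨h4, h5.trans h0.2⟩
      have h4 : τ0 ∉ (T.filter (fun τ => τ.1 ⊂ τ0.1)) := by
        rw [mem_filter]
        rintro ⟨_, h5⟩
        exact h5.ne rfl
      have h5 := card_insert_of_notMem h4
      rw [← e] at h5
      convert h5

theorem bs_ssub (σ : MF X col) : bs T σ ⊂ σ.1 := by
  rcases bs_cases hT σ with ⟨h, -, -⟩ | ⟨τ0, -, h1, h2, -, -⟩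
  · rw [h]
    exact σ.2.2.1.empty_ssubset
  · rw [h2]
    exact h1

/-- the elements between `bs T σ` and `σ` are in the link -/
theorem mem_lk_of_between (hX : ∀ σ ∈ X, ∀ τ : Finset (Fin N), τ ⊆ σ → τ ∈ X) {σ ρ : MF X col} (hσ : Cmp T σ)
    (h1 : bs T σ ⊂ ρ.1) (h2 : ρ.1 ⊂ σ.1) : ρ ∈ lk (cs X col) T := by
  intro τ hτ
  have hmc := mc_of_sub h2.subset
  by_cases hc : mc τ = mc σ
  · -- comparable
    have h3 : τ = σ ∨ τ.1 ⊂ σ.1 ∨ σ.1 ⊂ τ.1 := by
      rcases hσ τ hτ with h | h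
      · exact Or.inl h
      · exact Or.inr (comp h hc)
    rcases h3 with rfl | h3 | h3
    · exact adj_of_ssub h2
    · refine (adj_of_ssub (lt_of_le_of_lt ?_ h1)).symm
      rcases bs_cases hT σ with ⟨-, -, h⟩ | ⟨τ0, -, -, h4, -, h5⟩
      · exact absurd h3 (h τ hτ)
      · rw [h4]
        rcases h5 τ hτ h3 with rfl | h6
        · exact le_rfl
        · exact h6.subset
    · exact adj_of_ssub (h2.trans h3)
  · have h3 : (cs X col).Adj τ σ := (hσ τ hτ).resolve_left fun e => hc (by rw [e])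
    have hc' : mc τ ≠ mc ρ := by rw [hmc]; exact hc
    refine ⟨fun e => hc' (by rw [e]), ?_, fun h => ?_⟩
    · refine hX _ h3.2.1 _ ?_
      rw [union_comm]
      exact union_subset_union_right h2.subset
    · exfalso
      obtain ⟨v, hv⟩ := ρ.2.2.1
      obtain ⟨w, hw⟩ := τ.2.2.1
      refine hc' ?_
      rw [← mc_eq τ hw, ← mc_eq ρ hv]
      exact (h v hv w hw).symm

/-- all the other elements of the link of `T` which are adjacent to `σ` are adjacent to the elements between `bs T σ`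
and `σ` -/
theorem adj_between (hX : ∀ σ ∈ X, ∀ τ : Finset (Fin N), τ ⊆ σ → τ ∈ X) {σ ρ w : MF X col}
    (hw : w ∈ lk (cs X col) T) (hwσ : (cs X col).Adj σ w) (hno : ¬ (bs T σ ⊂ w.1 ∧ w.1 ⊂ σ.1))
    (h1 : bs T σ ⊂ ρ.1) (h2 : ρ.1 ⊂ σ.1) : (cs X col).Adj w ρ := by
  have hmc := mc_of_sub h2.subset
  by_cases hc : mc σ = mc w
  · rcases comp hwσ hc with h3 | h3
    · exact (adj_of_ssub (h2.trans h3)).symm
    · have h4 : ¬ bs T σ ⊂ w.1 := fun h => hno ⟨h, h3⟩
      rcases bs_cases hT σ with ⟨h5, -, -⟩ | ⟨τ0, h5, h6, h7, -, -⟩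
      · exact absurd (by rw [h5]; exact w.2.2.1.empty_ssubset) h4
      · rw [h7] at h4 h1
        have h8 : mc τ0 = mc w := by rw [mc_of_sub h6.subset, hc]
        rcases comp (hw τ0 h5).symm h8 with h9 | h9
        · exact absurd h9 h4
        · exact adj_of_ssub (h9.trans h1)
  · have hc' : mc w ≠ mc ρ := by rw [hmc]; exact fun e => hc e.symm
    refine ⟨fun e => hc' (by rw [e]), ?_, fun h => ?_⟩
    · refine hX _ hwσ.2.1 _ ?_
      rw [union_comm]
      exact union_subset_union_left h2.subset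
    · exfalso
      obtain ⟨v, hv⟩ := ρ.2.2.1
      obtain ⟨u, hu⟩ := w.2.2.1
      exact hc' (by rw [← mc_eq w hu, ← mc_eq ρ hv]; exact h u hu v hv)

/-! ### counting -/

/-- parity -/
theorem parity (hodd : ∀ τ ∈ T, Odd (τ.1 \ bs T τ).card) : ∀ (n : ℕ) (σ : MF X col), σ.1.card = n →
    Odd (σ.1 \ bs T σ).card → nb T σ + 1 ≤ σ.1.card ∧ (nb T σ + 1) % 2 = σ.1.card % 2 := by
  intro n
  induction n using Nat.strong_induction_on with
  | _ n ih =>
    intro σ hn ho
    have hcard := card_sdiff_add_card_eq_card (bs_ssub hT σ).subset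
    rcases bs_cases hT σ with ⟨h1, h2, -⟩ | ⟨τ0, h1, h2, h3, h4, -⟩
    · rw [h1, sdiff_empty] at ho
      rw [h2]
      have := card_pos' σ
      rw [Nat.odd_iff] at ho
      omega
    · obtain ⟨a1, a2⟩ := ih τ0.1.card (hn ▸ card_lt_card h2) τ0 rfl (hodd τ0 h1)
      rw [h3] at hcard ho
      rw [h4]
      rw [Nat.odd_iff] at ho
      omega

/-- counting chains -/
theorem chain_count : ∀ (n : ℕ) (ρ σ : MF X col), σ.1.card = n → ρ ∈ lk (cs X col) T →
    ρ.1 ⊂ σ.1 → ρ.1.card + nb T σ + 1 ≤ σ.1.card + nb T ρ := by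
  classical
  intro n
  induction n using Nat.strong_induction_on with
  | _ n ih =>
    intro ρ σ hn hρ hρσ
    have hlt := card_lt_card hρσ
    rcases bs_cases hT σ with ⟨h1, h2, h3⟩ | ⟨τ0, h1, h2, h3, h4, h5⟩
    · rw [h2]
      omega
    · have hc : mc τ0 = mc ρ := by rw [mc_of_sub h2.subset, mc_of_sub hρσ.subset]
      rw [h4]
      rcases comp (hρ τ0 h1).symm hc with h7 | h7
      · -- `τ0` is below `ρ`: no elements in between
        have h8 : nb T τ0 + 1 ≤ nb T ρ := by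
          rw [nb, nb]
          have e : insert τ0 (T.filter (fun τ => τ.1 ⊂ τ0.1)) ⊆ T.filter (fun τ => τ.1 ⊂ ρ.1) := by
            intro τ hτ
            rw [mem_insert, mem_filter] at hτ
            rcases hτ with rfl | ⟨h9, h10⟩
            · exact mem_filter.mpr ⟨h1, h7⟩
            · exact mem_filter.mpr ⟨h9, h10.trans h7⟩
          have h9 : τ0 ∉ (T.filter (fun τ => τ.1 ⊂ τ0.1)) := by
            rw [mem_filter]
            rintro ⟨_, h5⟩
            exact h5.ne rfl
          have h10 := card_le_card e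
          rw [card_insert_of_notMem h9] at h10
          convert h10
        omega
      · have h8 := ih τ0.1.card (hn ▸ card_lt_card h2) ρ τ0 rfl hρ h7
        have h9 := card_lt_card h2
        omega

/-- the number of the elements of `T` of the colour `c` -/
noncomputable def tcol (T : Finset (MF X col)) (c : Fin k) : ℕ :=
  open Classical in (T.filter (fun τ => mc τ = c)).card

/-- the size of the elements of the link -/
theorem top_count {a : ℕ} {ρ : MF X col} (hρ : ρ ∈ lk (cs X col) T)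
    (hsz : ∀ σ ∈ X, (∀ v ∈ σ, col v = mc ρ) → σ.card ≤ 2 * a) :
    ρ.1.card + tcol T (mc ρ) ≤ 2 * a + nb T ρ := by
  classical
  have hle : ∀ σ : MF X col, mc σ = mc ρ → σ.1.card ≤ 2 * a := fun σ h =>
    hsz σ.1 σ.2.1 fun v hv => by rw [mc_eq σ hv, h]
  -- the elements above `ρ`
  rcases (T.filter (fun τ => ρ.1 ⊂ τ.1)).eq_empty_or_nonempty with h | h
  · have h1 : tcol T (mc ρ) ≤ nb T ρ := by
      rw [tcol, nb]
      refine card_le_card fun τ hτ => ?_
      rw [mem_filter] at hτ ⊢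
      refine ⟨hτ.1, ?_⟩
      rcases comp (hρ τ hτ.1).symm hτ.2 with h2 | h2
      · exact h2
      · exfalso
        have : τ ∈ (T.filter (fun τ => ρ.1 ⊂ τ.1)) := mem_filter.mpr ⟨hτ.1, h2⟩
        rw [h] at this
        exact notMem_empty _ this
    have h2 := hle ρ rfl
    omega
  · obtain ⟨τ0, h0, hmax⟩ := exists_max_image _ (fun τ : MF X col => τ.1.card) h
    rw [mem_filter] at h0
    have hmc := mc_of_sub h0.2.subset
    have h1 := chain_count hT _ ρ τ0 rfl hρ h0.2
    have h2 := hle τ0 hmc.symm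
    have h3 : tcol T (mc ρ) ≤ nb T τ0 + 1 := by
      rw [tcol, nb]
      have e : T.filter (fun τ => mc τ = mc ρ) ⊆ insert τ0 (T.filter (fun τ => τ.1 ⊂ τ0.1)) := by
        intro τ hτ
        rw [mem_filter] at hτ
        rw [mem_insert, mem_filter]
        by_cases e : τ = τ0
        · exact Or.inl e
        · right
          refine ⟨hτ.1, ?_⟩
          rcases comp (hT hτ.1 h0.1 e) (by rw [hτ.2, hmc]) with h4 | h4
          · exact h4
          · exact absurd (hmax τ (mem_filter.mpr ⟨hτ.1, h0.2.trans h4⟩)) (not_le.mpr (card_lt_card h4))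
      refine (card_le_card e).trans (card_insert_le _ _ |>.trans ?_)
      rw [Nat.add_le_add_iff_right]
    omega

/-! ### the link -/

/-- **the `ℓ²`-homology of the links** -/
theorem lv_link {l : ℕ} (hX : ∀ σ ∈ X, ∀ τ : Finset (Fin N), τ ⊆ σ → τ ∈ X) (a : Fin k → ℕ)
    (hsz : ∀ σ ∈ X, ∀ c, (∀ v ∈ σ, col v = c) → σ.card ≤ 2 * a c)
    (ha : ∑ c, (2 * a c + 1 - tcol T c) / 2 ≤ l + 1)
    (hE : Emb l ((cs X col).induce (lk (cs X col) T))) (i : ℕ) (hi : l < i) :
    LV ((cs X col).induce (lk (cs X col) T)) i := by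
  classical
  by_cases hodd : ∀ τ ∈ T, Odd (τ.1 \ bs T τ).card
  swap
  · push Not at hodd
    obtain ⟨τ, hτ, he⟩ := hodd
    rw [Nat.not_odd_iff_even] at he
    refine lv_join_set _ _ {ρ | bs T τ ⊂ ρ.1 ∧ ρ.1 ⊂ τ.1}
      (fun ρ hρ => mem_lk_of_between hT hX (cmp_of_mem hT hτ) hρ.1 hρ.2) ?_
      (fun i => lv_interval hX τ _ (bs_ssub hT τ) he i) i
    intro ρ hρ w hw hno
    exact adj_between hT hX hw (hw τ hτ).symm hno hρ.1 hρ.2
  · set L := lk (cs X col) T with hL
    refine lv_relsub ((cs X col).induce L) {x | Even (x.1.1 \ bs T x.1).card}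
      (fun x => {y | bs T x.1 ⊂ y.1.1 ∧ y.1.1 ⊂ x.1.1}) (fun x => x.1.1.card) (l + 1) ?_ ?_ ?_ ?_ i hi
    · intro x _ y hy
      exact ⟨(adj_of_ssub (σ := y.1) (τ := x.1) hy.2).symm, card_lt_card hy.2⟩
    · intro x _ w hw hno y hy
      exact adj_between hT hX (σ := x.1) (ρ := y.1) (w := w.1) w.2 hw hno hy.1 hy.2
    · intro x hx i
      have h1 := lv_interval hX x.1 (bs T x.1) (bs_ssub hT x.1) hx i
      refine (lv_img (G := cs X col) (H := (cs X col).induce L) Subtype.val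
        {y | bs T x.1 ⊂ y.1.1 ∧ y.1.1 ⊂ x.1.1} (fun _ _ _ _ h => Subtype.ext h) (fun _ _ _ _ => Iff.rfl) i).2 ?_
      refine lv_set ?_ h1
      ext y
      constructor
      · rintro ⟨y, hy, rfl⟩
        exact hy
      · intro hy
        refine ⟨⟨y, mem_lk_of_between hT hX (fun τ hτ => Or.inr (x.2 τ hτ).symm) hy.1 hy.2⟩, hy, rfl⟩
    · intro i hi _ _
      -- the colours
      have hcard : Fintype.card (Σ c : Fin k, Fin ((2 * a c + 1 - tcol T c) / 2)) ≤ Fintype.card (Fin (l + 1)) := by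
        rw [Fintype.card_sigma, Fintype.card_fin]
        simpa using ha
      obtain ⟨ι⟩ := Function.Embedding.nonempty_of_card_le hcard
      have hpar : ∀ σ : ↥({x : ↥L | Even (x.1.1 \ bs T x.1).card}ᶜ),
          nb T σ.1.1 + 1 ≤ σ.1.1.1.card ∧ (nb T σ.1.1 + 1) % 2 = σ.1.1.1.card % 2 := fun σ =>
        parity hT hodd _ σ.1.1 rfl (Nat.not_even_iff_odd.mp σ.2)
      have hlt : ∀ σ : ↥({x : ↥L | Even (x.1.1 \ bs T x.1).card}ᶜ),
          (σ.1.1.1.card - nb T σ.1.1 - 1) / 2 < (2 * a (mc σ.1.1) + 1 - tcol T (mc σ.1.1)) / 2 := by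
        intro σ
        have h1 := top_count hT (a := a (mc σ.1.1)) σ.1.2 fun s hs hc => hsz s hs _ hc
        have h2 := hpar σ
        omega
      refine l2_emb (hE.induce _)
        (fun σ => ι ⟨mc σ.1.1, ⟨(σ.1.1.1.card - nb T σ.1.1 - 1) / 2, hlt σ⟩⟩) ?_ i (by omega)
      intro σ τ hστ h
      have hστ : (cs X col).Adj σ.1.1 τ.1.1 := hστ
      have h1 := ι.injective h
      rw [Sigma.mk.injEq] at h1
      obtain ⟨h2, h3⟩ := h1
      have h4 : (σ.1.1.1.card - nb T σ.1.1 - 1) / 2 = (τ.1.1.1.card - nb T τ.1.1 - 1) / 2 := by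
        have h5 : ∀ (n m : ℕ) (_ : n = m) (x : Fin n) (y : Fin m), x ≍ y → x.1 = y.1 := by
          rintro n m rfl x y h
          rw [eq_of_heq h]
        exact h5 _ _ (by rw [h2]) _ _ h3
      have a1 := hpar σ
      have a2 := hpar τ
      rcases comp hστ h2 with h6 | h6
      · have h7 := chain_count hT _ σ.1.1 τ.1.1 rfl σ.1.2 h6
        omega
      · have h7 := chain_count hT _ τ.1.1 σ.1.1 rfl τ.1.2 h6
        omega

end Pool.Agent.R782.Bal
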