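import Pool.Agent.R782.Bal.Cs
import Pool.Agent.R781.VS.Growth

/-!
# Main theorems
-/

set_option autoImplicit false

namespace Pool.Agent.R782.Bal

open Finset Pool.Agent.W907.SG Pool.Agent.W907.SM
open Pool.Agent.TH652.Above (HSph singer_of_above)
open Pool.Agent.Y132.SI (HInv growth_free)
open Pool.Agent.R781.VS (growth_of_above)

variable {N k : ℕ} {X : Finset (Finset (Fin N))} {col : Fin N → Fin k}

theorem EmbX.emb {d : ℕ} (hX : ∀ σ ∈ X, ∀ τ : Finset (Fin N), τ ⊆ σ → τ ∈ X) (h : EmbX d X col) :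
    Emb d (cs X col) := by
  rcases h with ⟨f, h1, h2, h3, h4⟩ | h
  · exact emb_cs hX h1 f h2 h3 h4
  · exact h

theorem above_cs {d : ℕ} (hX : ∀ σ ∈ X, ∀ τ : Finset (Fin N), τ ⊆ σ → τ ∈ X) (hs : Small d X col)
    (hE : EmbX d X col) [Fintype (MF X col)] [LinearOrder (MF X col)] (i : ℕ) (hi : d < i) :
    L2Van (cs X col) i := by
  obtain ⟨a, h1, h2⟩ := hs
  exact lv_cs hX a h1 h2 (hE.emb hX) i hi _ _

theorem growth_cs {d : ℕ} (hX : ∀ σ ∈ X, ∀ τ : Finset (Fin N), τ ⊆ σ → τ ∈ X) (hs : Small d X col)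
    (hE : EmbX d X col) [Fintype (MF X col)] [LinearOrder (MF X col)] (ε : ℝ) (hε : 0 < ε) :
    ∃ E : Finset (W (cs X col)), (1 : W (cs X col)) ∉ E ∧ ∀ H : Subgroup (W (cs X col)), H.FiniteIndex →
      (∀ g ∈ E, ∀ x : W (cs X col), x * g * x⁻¹ ∉ H) → ∀ i : ℕ, d < i →
        (Module.finrank ℝ (HInv (cs X col) H i) : ℝ) ≤ ε * H.index := by
  obtain ⟨E, h1, h2⟩ := growth_of_above (cs X col) (2 * d + 1) (fun i hi => above_cs hX hs hE i (by omega)) ε hε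
  exact ⟨E, h1, fun H hH hE i hi => h2 H hH hE i (by omega)⟩

theorem singer_cs {d n : ℕ} (hn : n = 2 * d ∨ n = 2 * d + 1)
    (hX : ∀ σ ∈ X, ∀ τ : Finset (Fin N), τ ⊆ σ → τ ∈ X) (hs : Small d X col) (hE : EmbX d X col)
    [Fintype (MF X col)] [LinearOrder (MF X col)] (hS : HSph n (cs X col)) (i : ℕ) (hi : 2 * i ≠ n) :
    L2Van (cs X col) i :=
  singer_of_above hS (fun i hi => above_cs hX hs hE i (by omega)) i hi

end Pool.Agent.R782.Bal
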