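import Mathlib

/-!
# A multilinear identity in characteristic two
-/

set_option autoImplicit false
set_option linter.unusedSectionVars false

namespace Pool.Agent.R782.Bal

open Finset

section Multi

variable {K ι : Type} [Field K] [Fintype ι] [LinearOrder ι]

/-- the two linear conditions in every coordinate -/
def Cond (τ : ι → K) (m : ℕ) (X : (Fin m → ι) → K) : Prop :=
  ∀ (c : Fin m) (p : Fin m → ι), ∑ v, X (Function.update p c v) = 0 ∧ ∑ v, τ v * X (Function.update p c v) = 0

/-- the form, by recursion on the number of coordinates -/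
def FF (τ : ι → K) : (m : ℕ) → ((Fin m → ι) → K) → ((Fin m → ι) → K) → K
  | 0, X, Y => X Fin.elim0 * Y Fin.elim0
  | m + 1, X, Y => ∑ v, ∑ w, if v < w then
      (τ v + τ w) * FF τ m (fun p => X (Fin.cons v p)) (fun p => Y (Fin.cons w p)) else 0

theorem FF_zero (τ : ι → K) (X Y : (Fin 0 → ι) → K) : FF τ 0 X Y = X Fin.elim0 * Y Fin.elim0 := rfl

theorem FF_succ (τ : ι → K) (m : ℕ) (X Y : (Fin (m + 1) → ι) → K) : FF τ (m + 1) X Y = ∑ v, ∑ w, if v < w then
      (τ v + τ w) * FF τ m (fun p => X (Fin.cons v p)) (fun p => Y (Fin.cons w p)) else 0 := rfl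

theorem FF_right (τ : ι → K) (a : ι → K) : ∀ (m : ℕ) (X : (Fin m → ι) → K) (Y : ι → (Fin m → ι) → K),
    FF τ m X (fun p => ∑ u, a u * Y u p) = ∑ u, a u * FF τ m X (Y u)
  | 0, X, Y => by
    simp only [FF_zero, mul_sum]
    refine sum_congr rfl fun u _ => ?_
    ring
  | m + 1, X, Y => by
    simp only [FF_succ]
    have h : ∀ v w, (if v < w then (τ v + τ w) * FF τ m (fun p => X (Fin.cons v p))
        (fun p => ∑ u, a u * Y u (Fin.cons w p)) else 0) = ∑ u, a u * (if v < w then (τ v + τ w) *
        FF τ m (fun p => X (Fin.cons v p)) (fun p => Y u (Fin.cons w p)) else 0) := by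
      intro v w
      split_ifs with h1
      · rw [FF_right τ a m (fun p => X (Fin.cons v p)) (fun u p => Y u (Fin.cons w p)), mul_sum]
        refine sum_congr rfl fun u _ => ?_
        ring
      · simp
    simp only [h]
    rw [sum_congr rfl fun v _ => sum_comm, sum_comm]
    refine sum_congr rfl fun u _ => ?_
    rw [mul_sum]
    refine sum_congr rfl fun v _ => ?_
    rw [mul_sum]

theorem FF_zero_right (τ : ι → K) : ∀ (m : ℕ) (X : (Fin m → ι) → K), FF τ m X (fun _ => 0) = 0
  | 0, X => by simp [FF_zero]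
  | m + 1, X => by
    simp only [FF_succ]
    refine sum_eq_zero fun v _ => sum_eq_zero fun w _ => ?_
    rw [FF_zero_right τ m]
    simp

theorem Cond.cons {τ : ι → K} {m : ℕ} {X : (Fin (m + 1) → ι) → K} (h : Cond τ (m + 1) X) (v : ι) :
    Cond τ m (fun p => X (Fin.cons v p)) := by
  intro c p
  have h1 := h c.succ (Fin.cons v p)
  simp only [← Fin.cons_update] at h1
  exact h1

theorem Cond.head {τ : ι → K} {m : ℕ} {X : (Fin (m + 1) → ι) → K} (h : Cond τ (m + 1) X) (p : Fin m → ι) :
    ∑ v, X (Fin.cons v p) = 0 ∧ ∑ v, τ v * X (Fin.cons v p) = 0 := by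
  rcases isEmpty_or_nonempty ι with h0 | ⟨⟨a⟩⟩
  · simp
  · have h1 := h 0 (Fin.cons a p)
    simp only [Fin.update_cons_zero] at h1
    exact h1

/-- summation against the last variable -/
theorem FF_head {τ : ι → K} {m : ℕ} {Y : (Fin (m + 1) → ι) → K} (h : Cond τ (m + 1) Y)
    (X : (Fin m → ι) → K) : ∑ w, FF τ m X (fun p => Y (Fin.cons w p)) = 0 ∧
      ∑ w, τ w * FF τ m X (fun p => Y (Fin.cons w p)) = 0 := by
  constructor
  · have h1 := FF_right τ (fun _ => (1 : K)) m X (fun u p => Y (Fin.cons u p))
    simp only [one_mul] at h1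
    rw [← h1]
    have h2 : (fun p => ∑ u, Y (Fin.cons u p)) = fun _ : Fin m → ι => (0 : K) := by
      funext p
      exact (h.head p).1
    rw [h2, FF_zero_right]
  · have h1 := FF_right τ τ m X (fun u p => Y (Fin.cons u p))
    rw [← h1]
    have h2 : (fun p => ∑ u, τ u * Y (Fin.cons u p)) = fun _ : Fin m → ι => (0 : K) := by
      funext p
      exact (h.head p).2
    rw [h2, FF_zero_right]

variable [CharP K 2]

theorem FF_symm {τ : ι → K} : ∀ (m : ℕ) (X Y : (Fin m → ι) → K), Cond τ m X → Cond τ m Y →
    FF τ m X Y = FF τ m Y X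
  | 0, X, Y, _, _ => by simp only [FF_zero]; ring
  | m + 1, X, Y, hX, hY => by
    have key : FF τ (m + 1) X Y + FF τ (m + 1) Y X = ∑ v, ∑ w,
        (τ v + τ w) * FF τ m (fun p => X (Fin.cons v p)) (fun p => Y (Fin.cons w p)) := by
      have e1 : FF τ (m + 1) Y X = ∑ v, ∑ w, if w < v then
          (τ v + τ w) * FF τ m (fun p => X (Fin.cons v p)) (fun p => Y (Fin.cons w p)) else 0 := by
        rw [FF_succ, sum_comm]
        refine sum_congr rfl fun v _ => sum_congr rfl fun w _ => ?_
        split_ifs with h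
        · rw [FF_symm m _ _ (hY.cons w) (hX.cons v)]
          ring
        · rfl
      rw [e1, FF_succ, ← sum_add_distrib]
      refine sum_congr rfl fun v _ => ?_
      rw [← sum_add_distrib]
      refine sum_congr rfl fun w _ => ?_
      rcases lt_trichotomy v w with h | h | h
      · rw [if_pos h, if_neg h.not_gt, add_zero]
      · subst h
        rw [if_neg (lt_irrefl v), CharTwo.add_self_eq_zero (τ v), zero_mul, add_zero]
      · rw [if_neg h.not_gt, if_pos h, zero_add]
    have key2 : ∑ v, ∑ w,
        (τ v + τ w) * FF τ m (fun p => X (Fin.cons v p)) (fun p => Y (Fin.cons w p)) = 0 := by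
      refine sum_eq_zero fun v _ => ?_
      have h1 := FF_head hY (fun p => X (Fin.cons v p))
      simp only [add_mul, sum_add_distrib]
      rw [← mul_sum, h1.1, h1.2]
      ring
    rw [key2] at key
    exact CharTwo.add_eq_zero.mp key

theorem FF_self {τ : ι → K} : ∀ (m : ℕ) (X : (Fin m → ι) → K), Cond τ m X →
    FF τ m X X = ∑ p : Fin m → ι, (∏ c, τ (p c)) * X p ^ 2
  | 0, X, _ => by
    rw [FF_zero, Fintype.sum_unique]
    have : (default : Fin 0 → ι) = Fin.elim0 := Subsingleton.elim _ _
    rw [this]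
    simp
    ring
  | m + 1, X, hX => by
    have h1 : FF τ (m + 1) X X = ∑ v, ∑ w, (if v = w then 0 else
        τ v * FF τ m (fun p => X (Fin.cons v p)) (fun p => X (Fin.cons w p))) := by
      have e1 : FF τ (m + 1) X X = (∑ v, ∑ w, if v < w then
          τ v * FF τ m (fun p => X (Fin.cons v p)) (fun p => X (Fin.cons w p)) else 0) +
          ∑ v, ∑ w, if v < w then
          τ w * FF τ m (fun p => X (Fin.cons v p)) (fun p => X (Fin.cons w p)) else 0 := by
        rw [FF_succ, ← sum_add_distrib]
        refine sum_congr rfl fun v _ => ?_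
        rw [← sum_add_distrib]
        refine sum_congr rfl fun w _ => ?_
        split_ifs
        · ring
        · ring
      have e2 : (∑ v, ∑ w, if v < w then
          τ w * FF τ m (fun p => X (Fin.cons v p)) (fun p => X (Fin.cons w p)) else 0) =
          ∑ v, ∑ w, if w < v then
          τ v * FF τ m (fun p => X (Fin.cons v p)) (fun p => X (Fin.cons w p)) else 0 := by
        rw [sum_comm]
        refine sum_congr rfl fun v _ => sum_congr rfl fun w _ => ?_
        split_ifs with h
        · rw [FF_symm m _ _ (hX.cons w) (hX.cons v)]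
        · rfl
      rw [e1, e2, ← sum_add_distrib]
      refine sum_congr rfl fun v _ => ?_
      rw [← sum_add_distrib]
      refine sum_congr rfl fun w _ => ?_
      rcases lt_trichotomy v w with h | h | h
      · rw [if_pos h, if_neg h.not_gt, if_neg h.ne, add_zero]
      · subst h
        simp
      · rw [if_neg h.not_gt, if_pos h, if_neg h.ne', zero_add]
    have h2 : ∀ v, (∑ w, (if v = w then 0 else
        τ v * FF τ m (fun p => X (Fin.cons v p)) (fun p => X (Fin.cons w p)))) =
        τ v * FF τ m (fun p => X (Fin.cons v p)) (fun p => X (Fin.cons v p)) := by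
      intro v
      have e1 := (FF_head hX (fun p => X (Fin.cons v p))).1
      have e2 : (∑ w, (if v = w then 0 else
          τ v * FF τ m (fun p => X (Fin.cons v p)) (fun p => X (Fin.cons w p)))) +
          (∑ w, (if v = w then
          τ v * FF τ m (fun p => X (Fin.cons v p)) (fun p => X (Fin.cons w p)) else 0)) =
          τ v * ∑ w, FF τ m (fun p => X (Fin.cons v p)) (fun p => X (Fin.cons w p)) := by
        rw [← sum_add_distrib, mul_sum]
        refine sum_congr rfl fun w _ => ?_
        split_ifs
        · ring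
        · ring
      rw [e1, mul_zero, sum_ite_eq, if_pos (mem_univ v)] at e2
      exact CharTwo.add_eq_zero.mp e2
    rw [h1, sum_congr rfl fun v _ => h2 v]
    have h3 : (∑ p : Fin (m + 1) → ι, (∏ c, τ (p c)) * X p ^ 2) =
        ∑ v, ∑ p : Fin m → ι, (∏ c, τ ((Fin.cons v p : Fin (m + 1) → ι) c)) * X (Fin.cons v p) ^ 2 := by
      rw [← Fintype.sum_prod_type']
      exact (Fintype.sum_equiv (Fin.consEquiv (fun _ => ι)) _ _ (fun x => rfl)).symm
    rw [h3]
    refine sum_congr rfl fun v _ => ?_
    rw [FF_self m _ (hX.cons v), mul_sum]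
    refine sum_congr rfl fun p _ => ?_
    rw [Fin.prod_univ_succ]
    simp only [Fin.cons_zero, Fin.cons_succ]
    ring

omit [CharP K 2] in
/-- closed form -/
theorem FF_eq (τ : ι → K) : ∀ (m : ℕ) (X Y : (Fin m → ι) → K),
    FF τ m X Y = ∑ p : Fin m → ι, ∑ q : Fin m → ι, if ∀ c, p c < q c then
      (∏ c, (τ (p c) + τ (q c))) * (X p * Y q) else 0
  | 0, X, Y => by
    rw [FF_zero, Fintype.sum_unique, Fintype.sum_unique]
    have : (default : Fin 0 → ι) = Fin.elim0 := Subsingleton.elim _ _
    rw [this]
    simp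
  | m + 1, X, Y => by
    have h3 : ∀ f : (Fin (m + 1) → ι) → K, (∑ p : Fin (m + 1) → ι, f p) =
        ∑ v, ∑ p : Fin m → ι, f (Fin.cons v p : Fin (m + 1) → ι) := by
      intro f
      rw [← Fintype.sum_prod_type']
      exact (Fintype.sum_equiv (Fin.consEquiv (fun _ => ι)) _ _ (fun x => rfl)).symm
    rw [h3]
    simp only [h3 (fun q => if ∀ c, _ < q c then _ else _)]
    rw [FF_succ]
    refine sum_congr rfl fun v _ => ?_
    rw [sum_comm]
    refine sum_congr rfl fun w _ => ?_
    split_ifs with h
    · rw [FF_eq τ m, mul_sum]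
      refine sum_congr rfl fun p _ => ?_
      rw [mul_sum]
      refine sum_congr rfl fun q _ => ?_
      have e : (∀ c : Fin (m + 1), (Fin.cons v p : Fin (m + 1) → ι) c < (Fin.cons w q : Fin (m + 1) → ι) c) ↔
          ∀ c, p c < q c := by
        rw [Fin.forall_fin_succ]
        simp only [Fin.cons_zero, Fin.cons_succ, h, true_and]
      simp only [e]
      split_ifs
      · rw [Fin.prod_univ_succ]
        simp only [Fin.cons_zero, Fin.cons_succ]
        ring
      · ring
    · symm
      refine sum_eq_zero fun p _ => sum_eq_zero fun q _ => ?_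
      rw [if_neg]
      intro h1
      exact h (by simpa using h1 0)

end Multi

end Pool.Agent.R782.Bal
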