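import Pool.Agent.R782.Bal.Lnk
import Pool.Agent.R703.CW.Main

/-!
# Coxeter weights on colourwise barycentric subdivisions
-/

set_option autoImplicit false
set_option linter.unusedSectionVars false

namespace Pool.Agent.R782.Bal

open Finset Pool.Agent.W907.SG Pool.Agent.W907.SM
open Pool.Agent.TH652.Above (HSph singer_of_above chi_sign)
open Pool.Agent.W497.FS (cl lam lkF mem_cl mem_lkF cl_of_subset)
open Pool.Agent.R703.CW (Orders omegaN omegaN_eq chiW_eq mem_cl_univ card_le_of_hsph hsph_link chiW_link Heavy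
  lam_ra bN_ra bN_ra_empty bN_light)
open Y365.FS

/-! ### links in homology spheres mod 2 -/

theorem hsph2_link {N : ℕ} : ∀ (σ : Finset (Fin N)) (K : Finset (Finset (Fin N))) (d : ℕ),
    Pool.Agent.Y131.KS.HSph K d → σ ∈ K → Pool.Agent.Y131.KS.HSph (Pool.Agent.Y131.KS.lk K σ) (d - σ.card) := by
  classical
  intro σ
  induction σ using Finset.induction_on with
  | empty =>
    intro K d hK _
    rw [Pool.Agent.Y131.KS.lk_empty, card_empty, Nat.sub_zero]
    exact hK
  | insert w σ hw ih =>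
    intro K d hK hσ
    have h1 : ({w} : Finset (Fin N)) ∈ K := hK.cx.2 _ hσ _ (singleton_subset_iff.mpr (mem_insert_self w σ))
    have h2 := hK.lk h1
    have h3 : σ ∈ Pool.Agent.Y131.KS.lk K {w} := by
      rw [Pool.Agent.Y131.KS.mem_lk]
      refine ⟨disjoint_singleton_right.mpr hw, ?_⟩
      rw [union_comm, ← insert_eq]
      exact hσ
    have h4 := ih _ _ h2 h3
    rw [Pool.Agent.Y131.KS.lk_lk hw] at h4
    rw [card_insert_of_notMem hw, show d - (σ.card + 1) = d - 1 - σ.card by omega]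
    exact h4

theorem emb_link {V : Type} (G : SimpleGraph V) (T : Finset V) (hT : G.IsClique (T : Set V)) {m j l : ℕ}
    (hj : T.card = 2 * j) (hl : j + l = m) {N n : ℕ} (K : Finset (Finset (Fin N))) (f : V ↪ Fin N)
    (hn : n ≤ 2 * m + 1) (hK : Pool.Agent.Y131.KS.HSph K n)
    (hf : ∀ T : Finset V, G.IsClique (T : Set V) → T.map f ∈ K) : Emb l (G.induce (lk G T)) := by
  classical
  refine Emb.sphere (Pool.Agent.Y131.KS.lk K (T.map f)) ((Function.Embedding.subtype _).trans f) (n := n - (T.map f).card)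
    ?_ (hsph2_link _ _ _ hK (hf T hT)) ?_
  · rw [card_map]
    omega
  · intro S hS
    rw [Pool.Agent.Y131.KS.mem_lk, ← map_map, disjoint_map, ← map_union]
    constructor
    · rw [disjoint_left]
      intro v hv hvT
      obtain ⟨u, _, rfl⟩ := mem_map.mp hv
      exact (u.2 _ hvT).ne rfl
    · refine hf _ ?_
      intro x hx y hy hxy
      rw [mem_coe, mem_union] at hx hy
      rcases hx with hx | hx
      · obtain ⟨u, hu, rfl⟩ := mem_map.mp hx
        rcases hy with hy | hy
        · obtain ⟨u', hu', rfl⟩ := mem_map.mp hy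
          exact hS hu hu' fun e => hxy (by rw [e])
        · exact u.2 y hy
      · rcases hy with hy | hy
        · obtain ⟨u', hu', rfl⟩ := mem_map.mp hy
          exact (u'.2 x hx).symm
        · exact hT hx hy hxy

variable {N k : ℕ} {X : Finset (Finset (Fin N))} {col : Fin N → Fin k}

theorem nb_lt {T : Finset (MF X col)} (hT : (cs X col).IsClique (T : Set (MF X col))) :
    ∀ (n : ℕ) (σ : MF X col), σ.1.card = n → nb T σ + 1 ≤ σ.1.card := by
  intro n
  induction n using Nat.strong_induction_on with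
  | _ n ih =>
    intro σ hn
    rcases bs_cases hT σ with ⟨-, h2, -⟩ | ⟨τ0, h1, h2, h3, h4, -⟩
    · have := card_pos' σ
      omega
    · have h5 := ih τ0.1.card (hn ▸ card_lt_card h2) τ0 rfl
      have h6 := card_lt_card h2
      omega

theorem tcol_le {T : Finset (MF X col)} (hT : (cs X col).IsClique (T : Set (MF X col))) (a : Fin k → ℕ)
    (hsz : ∀ σ ∈ X, ∀ c, (∀ v ∈ σ, col v = c) → σ.card ≤ 2 * a c) (c : Fin k) : tcol T c ≤ 2 * a c := by
  classical
  rcases (T.filter (fun τ => mc τ = c)).eq_empty_or_nonempty with h | h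
  · have : tcol T c = 0 := by
      rw [tcol, card_eq_zero, Finset.eq_empty_iff_forall_notMem]
      intro τ hτ
      have h1 : τ ∈ T.filter (fun τ => mc τ = c) := mem_filter.mpr (mem_filter.mp hτ)
      rw [h] at h1
      exact notMem_empty _ h1
    omega
  · obtain ⟨τ0, h0, hmax⟩ := exists_max_image _ (fun τ : MF X col => τ.1.card) h
    rw [mem_filter] at h0
    have h3 : tcol T c ≤ nb T τ0 + 1 := by
      rw [tcol, nb]
      have e : T.filter (fun τ => mc τ = c) ⊆ insert τ0 (T.filter (fun τ => τ.1 ⊂ τ0.1)) := by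
        intro τ hτ
        rw [mem_filter] at hτ
        rw [mem_insert, mem_filter]
        by_cases e : τ = τ0
        · exact Or.inl e
        · right
          refine ⟨hτ.1, ?_⟩
          rcases comp (hT hτ.1 h0.1 e) (by rw [hτ.2, h0.2]) with h4 | h4
          · exact h4
          · exact absurd (hmax τ (mem_filter.mpr hτ)) (not_le.mpr (card_lt_card h4))
      refine (card_le_card e).trans (card_insert_le _ _ |>.trans ?_)
      rw [Nat.add_le_add_iff_right]
    have h4 := nb_lt hT _ τ0 rfl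
    have h5 := hsz τ0.1 τ0.2.1 c fun v hv => by rw [mc_eq τ0 hv, h0.2]
    omega

theorem sum_tcol (T : Finset (MF X col)) : ∑ c, tcol T c = T.card := by
  classical
  have h := card_eq_sum_card_fiberwise (s := T) (t := (univ : Finset (Fin k))) (f := mc) fun x _ => mem_univ _
  rw [h]
  exact sum_congr rfl fun c _ => by rw [tcol]

theorem sum_bound {T : Finset (MF X col)} (hT : (cs X col).IsClique (T : Set (MF X col))) (a : Fin k → ℕ)
    (hsz : ∀ σ ∈ X, ∀ c, (∀ v ∈ σ, col v = c) → σ.card ≤ 2 * a c) {m j l : ℕ} (hj : T.card = 2 * j)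
    (hl : j + l = m) (hc : 2 * ∑ c, a c + ∑ c, tcol T c % 2 ≤ 2 * m + 2) :
    ∑ c, (2 * a c + 1 - tcol T c) / 2 ≤ l + 1 := by
  have h1 : ∀ c, 2 * ((2 * a c + 1 - tcol T c) / 2) + tcol T c = 2 * a c + tcol T c % 2 := by
    intro c
    have := tcol_le hT a hsz c
    omega
  have h2 : 2 * ∑ c, (2 * a c + 1 - tcol T c) / 2 + ∑ c, tcol T c = 2 * ∑ c, a c + ∑ c, tcol T c % 2 := by
    rw [mul_sum, mul_sum, ← sum_add_distrib, ← sum_add_distrib]
    exact sum_congr rfl fun c _ => h1 c
  rw [sum_tcol, hj] at h2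
  omega

variable [Fintype (MF X col)] [LinearOrder (MF X col)]

/-- the Charney–Davis inequality for links -/
theorem cd_link2 (hX : ∀ σ ∈ X, ∀ τ : Finset (Fin N), τ ⊆ σ → τ ∈ X) (a : Fin k → ℕ)
    (hsz : ∀ σ ∈ X, ∀ c, (∀ v ∈ σ, col v = c) → σ.card ≤ 2 * a c) {m : ℕ} (hS : HSph (2 * m) (cs X col))
    {N' n : ℕ} (K : Finset (Finset (Fin N'))) (f : MF X col ↪ Fin N') (hn : n ≤ 2 * m + 1)
    (hK : Pool.Agent.Y131.KS.HSph K n)
    (hf : ∀ T : Finset (MF X col), (cs X col).IsClique (T : Set (MF X col)) → T.map f ∈ K)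
    (T : Finset (MF X col)) (hT : (cs X col).IsClique (T : Set (MF X col))) {j l : ℕ} (hj : T.card = 2 * j)
    (hl : j + l = m) (hc : 2 * ∑ c, a c + ∑ c, tcol T c % 2 ≤ 2 * m + 2) :
    0 ≤ (-1) ^ l * lam (cs X col) (lkF (cs X col) Finset.univ T) := by
  classical
  have hfin : Fintype ↥(lk (cs X col) T) := Fintype.ofFinite _
  have h1 := hsph_link hS T hT
  have h3 : 2 * m - T.card = 2 * l := by omega
  rw [h3] at h1
  rw [← chiW_link T]
  refine chi_sign _ fun i hi => singer_of_above h1 (fun i hi => ?_) i (by omega)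
  exact lv_link hT hX a hsz (sum_bound hT a hsz hj hl hc) (emb_link _ T hT hj hl K f hn hK hf) i (by omega) _ _

/-- **the right-angled inequality** -/
theorem ra_cs (hX : ∀ σ ∈ X, ∀ τ : Finset (Fin N), τ ⊆ σ → τ ∈ X) (a : Fin k → ℕ)
    (hsz : ∀ σ ∈ X, ∀ c, (∀ v ∈ σ, col v = c) → σ.card ≤ 2 * a c) {m : ℕ} (hS : HSph (2 * m) (cs X col))
    {N' n : ℕ} (K : Finset (Finset (Fin N'))) (f : MF X col ↪ Fin N') (hn : n ≤ 2 * m + 1)
    (hK : Pool.Agent.Y131.KS.HSph K n)
    (hf : ∀ T : Finset (MF X col), (cs X col).IsClique (T : Set (MF X col)) → T.map f ∈ K)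
    (ha : ∑ c, a c ≤ m + 1) : 0 ≤ (-1 : ℚ) ^ m * chiW (cs X col) :=
  chi_sign _ fun i hi => singer_of_above hS (fun i hi =>
    lv_cs hX a ha hsz (Emb.sphere K f hn hK hf) i (by omega) _ _) i (by omega)

/-- **the weighted inequality** -/
theorem weighted_cs (hX : ∀ σ ∈ X, ∀ τ : Finset (Fin N), τ ⊆ σ → τ ∈ X) (a : Fin k → ℕ)
    (hsz : ∀ σ ∈ X, ∀ c, (∀ v ∈ σ, col v = c) → σ.card ≤ 2 * a c) {m : ℕ} (hS : HSph (2 * m) (cs X col))
    {N' n : ℕ} (K : Finset (Finset (Fin N'))) (f : MF X col ↪ Fin N') (hn : n ≤ 2 * m + 1)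
    (hK : Pool.Agent.Y131.KS.HSph K n)
    (hf : ∀ T : Finset (MF X col), (cs X col).IsClique (T : Set (MF X col)) → T.map f ∈ K)
    (w : Finset (MF X col) → ℕ) (M : Finset (MF X col) → ℚ) (hN : Orders (cs X col) w M)
    (hc : ∀ T : Finset (MF X col), (cs X col).IsClique (T : Set (MF X col)) → Even T.card → Heavy w T →
      T.Nonempty → 2 * ∑ c, a c + ∑ c, tcol T c % 2 ≤ 2 * m + 2 ∨
        ∃ A ⊆ T, Odd A.card ∧ ∀ x ∈ A, ∀ y ∈ T, y ∉ A → w {x, y} = 2) :
    (-1) ^ m * chiW (cs X col) ≤ (-1) ^ m * omegaN (cs X col) M := by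
  classical
  rw [omegaN_eq, chiW_eq]
  set H := cs X col with hH
  have hw : ∀ e ∈ cl H univ, e.card = 2 → 2 ≤ w e ∧ M e = 2 * w e := by
    intro e he he2
    obtain ⟨u, v, huv, rfl⟩ := Finset.card_eq_two.1 he2
    exact hN.edge u v ((mem_cl_univ _).1 he (by simp) (by simp) huv)
  have hmul : ∀ A B, Disjoint A B → A ∪ B ∈ cl H univ → (∀ a ∈ A, ∀ b ∈ B, w {a, b} = 2) →
      M (A ∪ B) = M A * M B := fun A B hAB hAB2 h => hN.mul A B hAB ((mem_cl_univ _).1 hAB2) h
  have hF : ∀ T ∈ cl H univ, ∀ U ⊆ T, U ∈ cl H univ := fun T hT U hU => cl_of_subset hT hU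
  have hG := goodOrders_of hF w (fun e he he2 => (hw e he he2).1) M hN.empty (fun v _ => hN.vertex v)
    (fun e he he2 => (hw e he he2).2) hmul (fun T hT h3 hc => hN.sign T ((mem_cl_univ T).1 hT) h3 hc)
  have hN0 : bN M (∅ : Finset (MF X col)) = 1 := by simp [bN, hN.empty]
  rw [← lam_ra (H := H) univ]
  refine Pool.Agent.R703.CW.compare m univ (fun σ => 2 ^ σ.card) M
    (fun T hT => card_le_of_hsph hS T ((mem_cl_univ T).1 hT)) ?_ ?_ ?_
  · intro T hT ho
    rw [(hG T hT).1 ho, bN_ra T (Finset.card_pos.1 ho.pos)]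
  · intro T hT j hj
    rcases T.eq_empty_or_nonempty with rfl | hne
    · rw [hN0, bN_ra_empty, sub_self, mul_zero]
    · rw [bN_ra T hne, sub_zero]
      exact (hG T hT).2 j hj
  · intro T hT j l hj hl hb
    rcases T.eq_empty_or_nonempty with rfl | hne
    · exact absurd (by rw [hN0, bN_ra_empty]) hb
    · have hTc := (mem_cl_univ T).1 hT
      have hh : Heavy w T := by
        by_contra hh
        exact hb (by rw [bN_ra T hne, bN_light hF w M hN.empty (fun v _ => hN.vertex v) hmul T hT hh])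
      rcases hc T hTc ⟨j, by omega⟩ hh hne with h1 | ⟨A, hA, hAo, hAw⟩
      · exact cd_link2 hX a hsz hS K f hn hK hf T hTc hj hl h1
      · exfalso
        apply hb
        rw [bN_ra T hne]
        have hd : Disjoint A (T \ A) := disjoint_sdiff
        have hu : A ∪ (T \ A) = T := union_sdiff_of_subset hA
        have h2 := bN_union hd M (fun U hU V hV => hmul U V
          (Finset.disjoint_of_subset_left hU (Finset.disjoint_of_subset_right hV hd))
          (hF T hT _ (by rw [← hu]; exact Finset.union_subset_union hU hV))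
          (fun x hx y hy => by
            have hy' := mem_sdiff.1 (hV hy)
            exact hAw x (hU hx) y hy'.1 hy'.2))
        rw [hu, (hG A (hF T hT A hA)).1 hAo, zero_mul] at h2
        exact h2.symm

end Pool.Agent.R782.Bal
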