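import Pool.Agent.R782.Bal.Gam
import Pool.Agent.R782.Bal.WtLnk

/-!
# The Taylor coefficients of the `γ`-polynomial at `1/4`
-/

set_option autoImplicit false
set_option linter.unusedSectionVars false

namespace Pool.Agent.R782.Bal

open Finset Polynomial Pool.Agent.W907.SG Pool.Agent.W907.SM Pool.Agent.R781.CubeAQ
open Pool.Agent.W497.FS (cl lam lkF mem_cl mem_lkF cl_of_subset IsGamma fe sum_sup)
open Pool.Agent.TH652.Above (HSph singer_of_above chi_sign)
open Pool.Agent.R703.CW (mem_cl_univ card_le_of_hsph hsph_link chiW_link)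

/-- the `f`-polynomial in terms of the `γ`-vector -/
theorem gamma_poly {n N : ℕ} {S : Finset (Finset (Fin N))} (hc : ∀ σ ∈ S, σ.card ≤ n) {γ : ℕ → ℤ}
    (hγ : IsGamma n S γ) :
    ∑ σ ∈ S, (X : ℚ[X]) ^ σ.card =
      ∑ i ∈ range (n / 2 + 1), C (γ i : ℚ) * (X * (1 + X)) ^ i * (1 + 2 * X) ^ (n - 2 * i) := by
  refine Polynomial.eq_of_infinite_eval_eq _ _ (Set.infinite_of_injective_forall_mem (f := fun k : ℕ => (k : ℚ))
    Nat.cast_injective fun k => ?_)
  show eval (k : ℚ) _ = eval (k : ℚ) _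
  generalize hx : (k : ℚ) = x
  have hx0 : (0 : ℚ) < 1 + x := by rw [← hx]; positivity
  unfold IsGamma at hγ
  have h1 := congrArg (fun p => Polynomial.eval₂ (Int.castRingHom ℚ) (x / (1 + x)) p) hγ
  simp only [Polynomial.eval₂_finsetSum, Polynomial.eval₂_mul, Polynomial.eval₂_pow, Polynomial.eval₂_C,
    Polynomial.eval₂_X, Polynomial.eval₂_sub, Polynomial.eval₂_add, Polynomial.eval₂_one] at h1
  have h2 := congrArg (fun z : ℚ => (1 + x) ^ n * z) h1
  simp only [Finset.mul_sum] at h2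
  simp only [Polynomial.eval_finsetSum, Polynomial.eval_mul, Polynomial.eval_pow, Polynomial.eval_C,
    Polynomial.eval_X, Polynomial.eval_add, Polynomial.eval_one, Polynomial.eval_ofNat]
  have e1 : x / (1 + x) * (1 + x) = x := div_mul_cancel₀ _ hx0.ne'
  have e2 : (1 - x / (1 + x)) * (1 + x) = 1 := by rw [sub_mul, e1]; ring
  have e3 : (1 + x / (1 + x)) * (1 + x) = 1 + 2 * x := by rw [add_mul, e1]; ring
  rw [← Finset.sum_fiberwise_of_maps_to (s := S) (t := Finset.range (n + 1)) (g := fun σ => σ.card)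
      (fun σ hσ => Finset.mem_range.mpr (by have := hc σ hσ; omega))]
  calc ∑ j ∈ range (n + 1), ∑ σ ∈ S with σ.card = j, x ^ σ.card
      = ∑ j ∈ range (n + 1), (1 + x) ^ n * ((Int.castRingHom ℚ) (((S.filter (fun G => G.card = j)).card : ℕ) : ℤ)
          * (x / (1 + x)) ^ j * (1 - x / (1 + x)) ^ (n - j)) := by
        refine Finset.sum_congr rfl fun j hj => ?_
        have hj' := Finset.mem_range.mp hj
        rw [Finset.sum_congr rfl (g := fun _ => x ^ j) (fun σ hσ => by rw [(Finset.mem_filter.mp hσ).2]),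
          Finset.sum_const, nsmul_eq_mul]
        have e4 : (1 + x) ^ n = (1 + x) ^ j * (1 + x) ^ (n - j) := by rw [← pow_add]; congr 1; omega
        rw [e4]
        calc ((S.filter (fun G => G.card = j)).card : ℚ) * x ^ j
            = ((S.filter (fun G => G.card = j)).card : ℚ) * (x / (1 + x) * (1 + x)) ^ j
              * ((1 - x / (1 + x)) * (1 + x)) ^ (n - j) := by rw [e1, e2, one_pow, mul_one]
          _ = _ := by rw [mul_pow, mul_pow]; simp; ring
    _ = ∑ i ∈ range (n / 2 + 1), (1 + x) ^ n * ((Int.castRingHom ℚ) (γ i) * (x / (1 + x)) ^ i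
          * (1 + x / (1 + x)) ^ (n - 2 * i)) := h2
    _ = _ := by
        refine Finset.sum_congr rfl fun i hi => ?_
        have hi' := Finset.mem_range.mp hi
        have e4 : (1 + x) ^ n = (1 + x) ^ i * (1 + x) ^ i * (1 + x) ^ (n - 2 * i) := by
          rw [← pow_add, ← pow_add]; congr 1; omega
        rw [e4]
        calc (1 + x) ^ i * (1 + x) ^ i * (1 + x) ^ (n - 2 * i) * ((Int.castRingHom ℚ) (γ i) * (x / (1 + x)) ^ i
              * (1 + x / (1 + x)) ^ (n - 2 * i))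
            = (γ i : ℚ) * ((x / (1 + x) * (1 + x)) ^ i * (1 + x) ^ i) *
              ((1 + x / (1 + x)) * (1 + x)) ^ (n - 2 * i) := by rw [mul_pow, mul_pow]; simp; ring
          _ = _ := by rw [e1, e3, mul_pow]

/-- the coefficient of `X ^ (n - 2 l)` -/
theorem coeff_aux (n i l : ℕ) (hi : 2 * i ≤ n) (hl : 2 * l ≤ n) :
    (((X ^ 2 + C (-1 / 4 : ℚ)) ^ i * (C (2 : ℚ) * X) ^ (n - 2 * i)).coeff (n - 2 * l)) =
      (-1) ^ l * (2 ^ n / 4 ^ l) * ((i.choose l : ℚ) / 4 ^ i) := by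
  have h1 : (X ^ 2 + C (-1 / 4 : ℚ)) ^ i = expand ℚ 2 ((X + C (-1 / 4 : ℚ)) ^ i) := by
    rw [map_pow, map_add, expand_X, expand_C]
  have h2 : (2 : ℚ) ^ (n - 2 * i) = 2 ^ n / 4 ^ i := by
    rw [eq_div_iff (by positivity), show (4 : ℚ) = 2 ^ 2 by norm_num, ← pow_mul, ← pow_add]
    congr 1
    omega
  rw [h1, mul_pow, ← C_pow, ← mul_assoc, mul_comm _ (C _), mul_assoc, coeff_C_mul, coeff_mul_X_pow', h2]
  split_ifs with h3
  · obtain ⟨a, rfl⟩ : ∃ a, i = l + a := ⟨i - l, by omega⟩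
    have h4 : n - 2 * l - (n - 2 * (l + a)) = a * 2 := by omega
    rw [h4, coeff_expand_mul (by norm_num), coeff_X_add_C_pow, Nat.add_sub_cancel,
      show (l + a).choose a = (l + a).choose l from by
        rw [Nat.choose_symm_add]]
    rw [div_pow]
    field_simp
  · rw [Nat.choose_eq_zero_of_lt (by omega)]
    simp

theorem taylor_eq {n l N : ℕ} {S : Finset (Finset (Fin N))} (hc : ∀ σ ∈ S, σ.card ≤ n) {γ : ℕ → ℤ}
    (hγ : IsGamma n S γ) (hl : 2 * l ≤ n) :
    ∑ σ ∈ S, (-1 / 2 : ℚ) ^ (σ.card - (n - 2 * l)) * (σ.card.choose (n - 2 * l) : ℚ) =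
      (-1) ^ l * (2 ^ n / 4 ^ l) * ∑ i ∈ range (n / 2 + 1), (i.choose l : ℚ) * γ i / 4 ^ i := by
  have h1 := congrArg (fun p : ℚ[X] => (p.comp (X + C (-1 / 2 : ℚ))).coeff (n - 2 * l)) (gamma_poly hc hγ)
  simp only [Polynomial.sum_comp, Polynomial.finsetSum_coeff, Polynomial.mul_comp,
    Polynomial.pow_comp, Polynomial.C_comp, Polynomial.X_comp, Polynomial.add_comp, Polynomial.one_comp,
    Polynomial.ofNat_comp, Nat.cast_ofNat, coeff_X_add_C_pow] at h1
  rw [h1, Finset.mul_sum]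
  refine Finset.sum_congr rfl fun i hi => ?_
  have hi' := Finset.mem_range.mp hi
  have e1 : (X + C (-1 / 2 : ℚ)) * (1 + (X + C (-1 / 2 : ℚ))) = X ^ 2 + C (-1 / 4 : ℚ) := by
    have : (C (-1 / 4 : ℚ) : ℚ[X]) = C (-1 / 2 : ℚ) * (1 + C (-1 / 2 : ℚ)) := by
      rw [← C_1, ← C_add, ← C_mul]; norm_num
    have h2 : (C (-1 / 2 : ℚ) : ℚ[X]) + C (-1 / 2 : ℚ) = -1 := by
      rw [← C_add, show (-1 / 2 : ℚ) + -1 / 2 = -1 by norm_num, C_neg, C_1]
    rw [this]
    linear_combination X * h2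
  have e2 : (1 + 2 * (X + C (-1 / 2 : ℚ)) : ℚ[X]) = C 2 * X := by
    have h2 : (C (-1 / 2 : ℚ) : ℚ[X]) + C (-1 / 2 : ℚ) = -1 := by
      rw [← C_add, show (-1 / 2 : ℚ) + -1 / 2 = -1 by norm_num, C_neg, C_1]
    have h3 : (C 2 : ℚ[X]) = 2 := rfl
    rw [h3]
    linear_combination h2
  rw [e1, e2, mul_assoc, coeff_C_mul, coeff_aux n i l (by omega) hl]
  ring

variable {V : Type} [Fintype V] [LinearOrder V] {G : SimpleGraph V}

theorem fam_sum {n : ℕ} (φ : V ≃ Fin n) (G : SimpleGraph V) (g : ℕ → ℚ) :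
    ∑ σ ∈ fam φ G, g σ.card = ∑ T ∈ cl G univ, g T.card := by
  classical
  symm
  refine Finset.sum_bij (fun F _ => F.map φ.toEmbedding) ?_ ?_ ?_ ?_
  · intro F hF
    exact (cliqueEquiv φ G ⟨F, (mem_cl_univ F).1 hF⟩).2
  · intro F _ F' _ h
    exact Finset.map_injective _ h
  · intro F hF
    refine ⟨F.map φ.symm.toEmbedding, ?_, ?_⟩
    · rw [mem_cl_univ]
      exact (mem_fam φ G F).1 hF
    · rw [Finset.map_map]
      have : φ.symm.toEmbedding.trans φ.toEmbedding = Function.Embedding.refl (Fin n) := by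
        ext; simp
      rw [this, Finset.map_refl]
  · intro F _
    rw [Finset.card_map]

theorem sum_lk (t : ℕ) :
    ∑ σ ∈ cl G univ, (-1 / 2 : ℚ) ^ (σ.card - t) * (σ.card.choose t : ℚ) =
      ∑ T ∈ (cl G univ).filter (fun T => T.card = t), lam G (lkF G univ T) := by
  classical
  have h1 : ∀ T ∈ (cl G univ).filter (fun T => T.card = t), lam G (lkF G univ T) =
      ∑ σ ∈ cl G univ, if T ⊆ σ then (-1 / 2 : ℚ) ^ (σ.card - t) else 0 := by
    intro T hT
    rw [mem_filter] at hT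
    rw [← Finset.sum_filter, sum_sup hT.1 (fun n => (-1 / 2 : ℚ) ^ (n - t)), lam, fe]
    refine Finset.sum_congr rfl fun ρ _ => ?_
    rw [hT.2, Nat.add_sub_cancel]
  rw [Finset.sum_congr rfl h1, Finset.sum_comm]
  refine Finset.sum_congr rfl fun σ hσ => ?_
  rw [← Finset.sum_filter, Finset.sum_const, nsmul_eq_mul, mul_comm]
  congr 2
  rw [← Finset.card_powersetCard]
  congr 1
  ext T
  rw [mem_powersetCard, mem_filter, mem_filter]
  exact ⟨fun h => ⟨⟨cl_of_subset hσ h.1, h.2⟩, h.1⟩, fun h => ⟨h.2, h.1.2⟩⟩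

/-- **nonnegative Taylor coefficients** -/
theorem taylor_nonneg {n l : ℕ} (hS : HSph n G) (hl : 2 * l ≤ n)
    (h : ∀ T : Finset V, G.IsClique (T : Set V) → T.card = n - 2 * l → 0 ≤ (-1) ^ l * lam G (lkF G univ T))
    {N : ℕ} (φ : V ≃ Fin N) {γ : ℕ → ℤ} (hγ : IsGamma n (fam φ G) γ) :
    0 ≤ ∑ i ∈ range (n / 2 + 1), (i.choose l : ℚ) * γ i / 4 ^ i := by
  have h1 := taylor_eq (l := l) (fun σ hσ => by
    have h2 := HSph_card hS ((mem_fam φ G σ).1 hσ)
    rwa [Finset.card_map] at h2) hγ hl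
  rw [fam_sum φ G (fun c => (-1 / 2 : ℚ) ^ (c - (n - 2 * l)) * (c.choose (n - 2 * l) : ℚ)), sum_lk] at h1
  have h2 : 0 ≤ (-1 : ℚ) ^ l * ∑ T ∈ (cl G univ).filter (fun T => T.card = n - 2 * l), lam G (lkF G univ T) := by
    rw [Finset.mul_sum]
    refine Finset.sum_nonneg fun T hT => ?_
    rw [mem_filter] at hT
    exact h T ((mem_cl_univ T).1 hT.1) hT.2
  rw [h1, ← mul_assoc, ← mul_assoc, ← mul_pow, neg_mul_neg, one_mul, one_pow, one_mul] at h2
  exact nonneg_of_mul_nonneg_right h2 (by positivity)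

/-- **positivity at `s ≥ 1/4`** -/
theorem gamma_eval_pos {n : ℕ} (hS : HSph n G) {N : ℕ} (φ : V ≃ Fin N) {γ : ℕ → ℤ} (hγ : IsGamma n (fam φ G) γ)
    (h : ∀ l, 2 * l ≤ n → 0 ≤ ∑ i ∈ range (n / 2 + 1), (i.choose l : ℚ) * γ i / 4 ^ i) (s : ℝ) (hs : 1 / 4 ≤ s) :
    0 < ∑ i ∈ range (n / 2 + 1), (γ i : ℝ) * s ^ i := by
  classical
  have hcard : ∀ σ ∈ fam φ G, σ.card ≤ n := fun σ hσ => by
    have h2 := HSph_card hS ((mem_fam φ G σ).1 hσ)
    rwa [Finset.card_map] at h2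
  have h0 : 0 < ∑ i ∈ range (n / 2 + 1), (i.choose 0 : ℚ) * γ i / 4 ^ i := by
    have h1 := taylor_eq (l := 0) hcard hγ (Nat.zero_le _)
    rw [fam_sum φ G (fun c => (-1 / 2 : ℚ) ^ (c - (n - 2 * 0)) * (c.choose (n - 2 * 0) : ℚ))] at h1
    obtain ⟨F, -, hF, hFn⟩ := Pool.Agent.R703.CW.exists_facet hS ∅ (by simp)
    have h2 : 0 < ∑ T ∈ cl G univ, (-1 / 2 : ℚ) ^ (T.card - (n - 2 * 0)) * (T.card.choose (n - 2 * 0) : ℚ) := by
      refine Finset.sum_pos' (fun T hT => ?_) ⟨F, (mem_cl_univ F).2 hF, ?_⟩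
      · have h3 := HSph_card hS ((mem_cl_univ T).1 hT)
        rw [show T.card - (n - 2 * 0) = 0 by omega, pow_zero, one_mul]
        exact Nat.cast_nonneg _
      · rw [hFn, show n - 2 * 0 = n by omega]
        simp
    rw [h1, pow_zero, one_mul, pow_zero, div_one] at h2
    exact (mul_pos_iff_of_pos_left (by positivity)).mp h2
  have h1 : ∑ i ∈ range (n / 2 + 1), (γ i : ℝ) * s ^ i =
      ∑ l ∈ range (n / 2 + 1), ((∑ i ∈ range (n / 2 + 1), (i.choose l : ℚ) * γ i / 4 ^ i : ℚ) : ℝ) * (4 * s - 1) ^ l := by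
    push_cast
    simp only [Finset.sum_mul]
    rw [Finset.sum_comm]
    refine Finset.sum_congr rfl fun i hi => ?_
    have h2 : s ^ i = (1 / 4 ^ i) * ∑ l ∈ range (n / 2 + 1), (4 * s - 1) ^ l * (i.choose l : ℝ) := by
      have h3 : s = (1 / 4) * ((4 * s - 1) + 1) := by ring
      conv_lhs => rw [h3, mul_pow, add_pow]
      rw [one_div_pow]
      congr 1
      have h4 : range (i + 1) ⊆ range (n / 2 + 1) := by
        intro j hj
        rw [mem_range] at *
        omega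
      rw [← Finset.sum_subset h4 (fun j _ hj => by
        rw [mem_range, not_lt] at hj
        rw [Nat.choose_eq_zero_of_lt (by omega), Nat.cast_zero, mul_zero])]
      refine Finset.sum_congr rfl fun l _ => ?_
      rw [one_pow, mul_one]
    rw [h2, Finset.mul_sum, Finset.mul_sum]
    refine Finset.sum_congr rfl fun l _ => ?_
    ring
  rw [h1]
  have h4 : 0 ≤ 4 * s - 1 := by linarith
  refine Finset.sum_pos' (fun l hl => ?_) ⟨0, by simp, ?_⟩
  · rw [mem_range] at hl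
    exact mul_nonneg (by exact_mod_cast h l (by omega)) (pow_nonneg h4 l)
  · rw [pow_zero, mul_one]
    exact_mod_cast h0

/-! ### coloured subdivisions -/

theorem emb_link' {V : Type} (G : SimpleGraph V) (T : Finset V) (hT : G.IsClique (T : Set V)) {n l : ℕ}
    (hl : T.card + 2 * l = n) {N n' : ℕ} (K : Finset (Finset (Fin N))) (f : V ↪ Fin N)
    (hn : n' ≤ n + 1) (hK : Pool.Agent.Y131.KS.HSph K n')
    (hf : ∀ T : Finset V, G.IsClique (T : Set V) → T.map f ∈ K) : Emb l (G.induce (lk G T)) := by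
  classical
  refine Emb.sphere (Pool.Agent.Y131.KS.lk K (T.map f)) ((Function.Embedding.subtype _).trans f)
    (n := n' - (T.map f).card) ?_ (hsph2_link _ _ _ hK (hf T hT)) ?_
  · rw [card_map]
    omega
  · intro S hS
    rw [Pool.Agent.Y131.KS.mem_lk, ← map_map, disjoint_map, ← map_union]
    constructor
    · rw [disjoint_left]
      intro v hv hvT
      obtain ⟨u, _, rfl⟩ := mem_map.mp hv
      exact (u.2 _ hvT).ne rfl
    · refine hf _ ?_
      intro x hx y hy hxy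
      rw [mem_coe, mem_union] at hx hy
      rcases hx with hx | hx
      · obtain ⟨u, hu, rfl⟩ := mem_map.mp hx
        rcases hy with hy | hy
        · obtain ⟨u', hu', rfl⟩ := mem_map.mp hy
          exact hS hu hu' fun e => hxy (by rw [e])
        · exact u.2 y hy
      · rcases hy with hy | hy
        · obtain ⟨u', hu', rfl⟩ := mem_map.mp hy
          exact (u'.2 x hx).symm
        · exact hT hx hy hxy

section cs

variable {N k : ℕ} {X : Finset (Finset (Fin N))} {col : Fin N → Fin k}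

theorem sum_bound' {T : Finset (MF X col)} (hT : (cs X col).IsClique (T : Set (MF X col))) (a : Fin k → ℕ)
    (hsz : ∀ σ ∈ X, ∀ c, (∀ v ∈ σ, col v = c) → σ.card ≤ 2 * a c) {n l : ℕ}
    (hl : T.card + 2 * l = n) (hc : 2 * ∑ c, a c + ∑ c, tcol T c % 2 ≤ n + 2) :
    ∑ c, (2 * a c + 1 - tcol T c) / 2 ≤ l + 1 := by
  have h1 : ∀ c, 2 * ((2 * a c + 1 - tcol T c) / 2) + tcol T c = 2 * a c + tcol T c % 2 := by
    intro c
    have := tcol_le hT a hsz c
    omega
  have h2 : 2 * ∑ c, (2 * a c + 1 - tcol T c) / 2 + ∑ c, tcol T c = 2 * ∑ c, a c + ∑ c, tcol T c % 2 := by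
    rw [mul_sum, mul_sum, ← sum_add_distrib, ← sum_add_distrib]
    exact sum_congr rfl fun c _ => h1 c
  rw [sum_tcol] at h2
  omega

variable [Fintype (MF X col)] [LinearOrder (MF X col)]

/-- the Charney–Davis inequality for links, both parities -/
theorem cd_link3 (hX : ∀ σ ∈ X, ∀ τ : Finset (Fin N), τ ⊆ σ → τ ∈ X) (a : Fin k → ℕ)
    (hsz : ∀ σ ∈ X, ∀ c, (∀ v ∈ σ, col v = c) → σ.card ≤ 2 * a c) {n : ℕ} (hS : HSph n (cs X col))
    {N' n' : ℕ} (K : Finset (Finset (Fin N'))) (f : MF X col ↪ Fin N') (hn : n' ≤ n + 1)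
    (hK : Pool.Agent.Y131.KS.HSph K n')
    (hf : ∀ T : Finset (MF X col), (cs X col).IsClique (T : Set (MF X col)) → T.map f ∈ K)
    (T : Finset (MF X col)) (hT : (cs X col).IsClique (T : Set (MF X col))) {l : ℕ}
    (hl : T.card + 2 * l = n) (hc : 2 * ∑ c, a c + ∑ c, tcol T c % 2 ≤ n + 2) :
    0 ≤ (-1) ^ l * lam (cs X col) (lkF (cs X col) Finset.univ T) := by
  classical
  have hfin : Fintype ↥(lk (cs X col) T) := Fintype.ofFinite _
  have h1 := hsph_link hS T hT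
  have h3 : n - T.card = 2 * l := by omega
  rw [h3] at h1
  rw [← chiW_link T]
  refine chi_sign _ fun i hi => singer_of_above h1 (fun i hi => ?_) i (by omega)
  exact lv_link hT hX a hsz (sum_bound' hT a hsz hl hc) (emb_link' _ T hT hl K f hn hK hf) i (by omega) _ _

/-- the number of odd colours has the parity of the number of vertices -/
theorem odd_parity (T : Finset (MF X col)) : (∑ c, tcol T c % 2) % 2 = T.card % 2 := by
  rw [← sum_tcol T, ← Finset.sum_nat_mod]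

theorem odd_le (T : Finset (MF X col)) : ∑ c, tcol T c % 2 ≤ k := by
  refine (Finset.sum_le_sum fun c _ => (Nat.lt_succ_iff.mp (Nat.mod_lt _ (by norm_num : 0 < 2)) : _ ≤ 1)).trans ?_
  simp

theorem odd_le_card (T : Finset (MF X col)) : ∑ c, tcol T c % 2 ≤ T.card := by
  rw [← sum_tcol T]
  exact Finset.sum_le_sum fun c _ => Nat.mod_le _ _

end cs

end Pool.Agent.R782.Bal
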